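import Mathlib
import Pool.Agent.X142.LI.Count
import Pool.Agent.W472.AC.EMeas2

/-!
# Near relations between powers of `e` and one more number
-/

set_option autoImplicit false

namespace Pool.Agent.X142.LI

open Finset

variable {m : ℕ}

/-- the height of `(a, c)` -/
def ht (v : (Fin (m + 1) → ℤ) × ℤ) : ℕ := max (univ.sup fun i => (v.1 i).natAbs) v.2.natAbs

/-- the coefficients have no common divisor -/
def Prim (v : (Fin (m + 1) → ℤ) × ℤ) : Prop := ∀ d : ℤ, (∀ i, d ∣ v.1 i) → d ∣ v.2 → IsUnit d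

/-- the linear form `∑ a i e^(k i) + c t` -/
noncomputable def form (k : Fin (m + 1) → ℤ) (t : ℝ) (v : (Fin (m + 1) → ℤ) × ℤ) : ℝ :=
  ∑ i, (v.1 i : ℝ) * Real.exp (k i) + v.2 * t

lemma abs_le_ht (v : (Fin (m + 1) → ℤ) × ℤ) (i : Fin (m + 1)) : |(v.1 i : ℝ)| ≤ ht v := by
  have h1 : (v.1 i).natAbs ≤ ht v :=
    (Finset.le_sup (f := fun i => (v.1 i).natAbs) (mem_univ i)).trans (le_max_left _ _)
  rw [← Int.cast_abs, Int.abs_eq_natAbs]
  exact_mod_cast h1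

lemma eq_of_prop (v v' : (Fin (m + 1) → ℤ) × ℤ) (hv : Prim v) (hv' : Prim v') (h0 : 0 < v.2)
    (h0' : 0 < v'.2) (h : ∀ i, v'.2 * v.1 i = v.2 * v'.1 i) : v = v' := by
  obtain ⟨g, hg⟩ : ∃ g : ℤ, g = Int.gcd v.2 v'.2 := ⟨_, rfl⟩
  have hg0 : g ≠ 0 := by
    rw [hg]
    intro h
    have := Int.gcd_eq_zero_iff.1 (by exact_mod_cast h : Int.gcd v.2 v'.2 = 0)
    omega
  have hgpos : 0 < g := lt_of_le_of_ne (by rw [hg]; positivity) hg0.symm
  obtain ⟨d, hd⟩ : g ∣ v.2 := by rw [hg]; exact Int.gcd_dvd_left ..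
  obtain ⟨d', hd'⟩ : g ∣ v'.2 := by rw [hg]; exact Int.gcd_dvd_right ..
  have hcop : IsCoprime d d' := by
    rw [Int.isCoprime_iff_gcd_eq_one]
    have h1 : Int.gcd (g * d) (g * d') = g.natAbs * Int.gcd d d' := Int.gcd_mul_left ..
    rw [← hd, ← hd'] at h1
    have h2 : (Int.gcd v.2 v'.2 : ℤ) = g := hg.symm
    have h3 : g.natAbs = Int.gcd v.2 v'.2 := by omega
    have h4 : 0 < g.natAbs := Int.natAbs_pos.2 hg0
    rw [← h3] at h1
    nlinarith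
  have hdpos : 0 < d := by
    by_contra hcon
    nlinarith
  have hdpos' : 0 < d' := by
    by_contra hcon
    nlinarith
  have h2 : ∀ i, d' * v.1 i = d * v'.1 i := by
    intro i
    have h3 := h i
    rw [hd, hd'] at h3
    have h4 : g * (d' * v.1 i) = g * (d * v'.1 i) := by linarith
    exact mul_left_cancel₀ hg0 h4
  have h3 : d = 1 := by
    have hu : IsUnit d := hv d (fun i => by
      have h4 : d ∣ d' * v.1 i := ⟨v'.1 i, h2 i⟩
      exact hcop.dvd_of_dvd_mul_left h4) ⟨g, by rw [hd]; ring⟩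
    rcases Int.isUnit_iff.1 hu with h | h <;> omega
  have h4 : d' = 1 := by
    have hu : IsUnit d' := hv' d' (fun i => by
      have h4 : d' ∣ d * v'.1 i := ⟨v.1 i, (h2 i).symm⟩
      exact hcop.symm.dvd_of_dvd_mul_left h4) ⟨g, by rw [hd']; ring⟩
    rcases Int.isUnit_iff.1 hu with h | h <;> omega
  refine Prod.ext (funext fun i => ?_) ?_
  · have := h2 i
    rw [h3, h4] at this
    linarith
  · rw [hd, hd', h3, h4]

/-- the near relations -/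
def Near (k : Fin (m + 1) → ℤ) (t B θ w : ℝ) : Set ((Fin (m + 1) → ℤ) × ℤ) :=
  {v | Prim v ∧ 0 < v.2 ∧ (v.2 : ℝ) ≤ B * (ht v : ℝ) ^ θ ∧ |form k t v| ≤ (ht v : ℝ) ^ (-w)}

theorem gap (k : Fin (m + 1) → ℤ) (hinj : Function.Injective k) (hk0 : k 0 = 0)
    (hk : ∀ i, 0 ≤ k i) (B θ w η : ℝ) (hB : 1 ≤ B) (hθ0 : 0 ≤ θ) (hθ1 : θ ≤ 1) (hw : 0 ≤ w)
    (hη : 0 < η) :
    ∃ C : ℝ, 0 < C ∧ ∀ t : ℝ, ∀ v ∈ Near k t B θ w, ∀ v' ∈ Near k t B θ w, v ≠ v' →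
      (ht v : ℝ) ≤ ht v' → 1 ≤ (ht v : ℝ) →
      C * (ht v : ℝ) ^ ((w - θ * (m + η)) / (θ + m + η)) ≤ ht v' := by
  obtain ⟨c, hc, hmeas⟩ := Pool.Agent.W472.AC.e_meas m k hinj hk0 hk η hη
  have hm : (0 : ℝ) ≤ m := Nat.cast_nonneg _
  have hs : 0 < θ + m + η := by linarith
  obtain ⟨C, hC⟩ : ∃ C : ℝ, C = (c / (2 * B) ^ (m + 1 + η)) ^ (1 / (θ + m + η)) := ⟨_, rfl⟩
  refine ⟨C, by rw [hC]; positivity, ?_⟩
  rintro t v ⟨hv1, hv2, hv3, hv4⟩ v' ⟨hv1', hv2', hv3', hv4'⟩ hne hle h1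
  obtain ⟨H, hH⟩ : ∃ H : ℝ, H = ht v := ⟨_, rfl⟩
  obtain ⟨H', hH'⟩ : ∃ H' : ℝ, H' = ht v' := ⟨_, rfl⟩
  rw [← hH] at hle h1 hv3 hv4 ⊢
  rw [← hH'] at hle hv3' hv4' ⊢
  have hH0 : 0 < H := by linarith
  have hH0' : 0 < H' := by linarith
  have hv2r : (0 : ℝ) < v.2 := by exact_mod_cast hv2
  have hv2r' : (0 : ℝ) < v'.2 := by exact_mod_cast hv2'
  -- the eliminated vector
  obtain ⟨u, hu⟩ : ∃ u : Fin (m + 1) → ℤ, u = fun i => v'.2 * v.1 i - v.2 * v'.1 i := ⟨_, rfl⟩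
  have hu0 : u ≠ 0 := by
    intro h
    apply hne
    refine eq_of_prop v v' hv1 hv1' hv2 hv2' fun i => ?_
    have h2 := congrFun h i
    rw [hu] at h2
    simp only [Pi.zero_apply] at h2
    linarith
  -- `H'^θ H ≤ H^θ H'`
  have hpow : H' ^ θ * H ≤ H ^ θ * H' := by
    have e1 : H = H ^ θ * H ^ (1 - θ) := by
      rw [← Real.rpow_add hH0, add_sub_cancel, Real.rpow_one]
    have e2 : H' = H' ^ θ * H' ^ (1 - θ) := by
      rw [← Real.rpow_add hH0', add_sub_cancel, Real.rpow_one]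
    calc H' ^ θ * H = H' ^ θ * (H ^ θ * H ^ (1 - θ)) := by rw [← e1]
      _ ≤ H' ^ θ * (H ^ θ * H' ^ (1 - θ)) := by
          have : H ^ (1 - θ) ≤ H' ^ (1 - θ) := Real.rpow_le_rpow hH0.le hle (by linarith)
          gcongr
      _ = H ^ θ * (H' ^ θ * H' ^ (1 - θ)) := by ring
      _ = H ^ θ * H' := by rw [← e2]
  obtain ⟨A, hA⟩ : ∃ A : ℝ, A = 2 * B * (H ^ θ * H') := ⟨_, rfl⟩
  have hHθ : 1 ≤ H ^ θ := Real.one_le_rpow h1 hθ0
  have hHθ' : 0 < H' ^ θ := by positivity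
  have hA1 : 1 ≤ A := by
    rw [hA]
    have h2 : 1 ≤ H ^ θ * H' := by nlinarith
    nlinarith
  have huA : ∀ i, |(u i : ℝ)| ≤ A := by
    intro i
    have e1 : (u i : ℝ) = v'.2 * v.1 i - v.2 * v'.1 i := by
      rw [hu]
      push_cast
      ring
    have h2 : |(v'.2 : ℝ) * v.1 i| ≤ B * H' ^ θ * H := by
      rw [abs_mul, abs_of_pos hv2r']
      exact mul_le_mul hv3' (hH ▸ abs_le_ht v i) (abs_nonneg _) (by positivity)
    have h3 : |(v.2 : ℝ) * v'.1 i| ≤ B * H ^ θ * H' := by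
      rw [abs_mul, abs_of_pos hv2r]
      exact mul_le_mul hv3 (hH' ▸ abs_le_ht v' i) (abs_nonneg _) (by positivity)
    rw [e1, hA]
    refine (abs_sub _ _).trans ?_
    have hB0 : 0 ≤ B := by linarith
    nlinarith [mul_le_mul_of_nonneg_left hpow hB0]
  have h2 := hmeas u hu0 A hA1 huA
  have e3 : ∑ j, (u j : ℝ) * Real.exp (k j) = v'.2 * form k t v - v.2 * form k t v' := by
    unfold form
    rw [mul_add, mul_add, Finset.mul_sum, Finset.mul_sum]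
    have : ∑ j, (u j : ℝ) * Real.exp (k j) = ∑ i, (v'.2 : ℝ) * ((v.1 i : ℝ) * Real.exp (k i)) -
        ∑ i, (v.2 : ℝ) * ((v'.1 i : ℝ) * Real.exp (k i)) := by
      rw [← Finset.sum_sub_distrib]
      refine Finset.sum_congr rfl fun i _ => ?_
      rw [hu]
      push_cast
      ring
    rw [this]
    ring
  have h3 : |∑ j, (u j : ℝ) * Real.exp (k j)| ≤ 2 * B * H' ^ θ * H ^ (-w) := by
    rw [e3]
    have h4 : |(v'.2 : ℝ) * form k t v| ≤ B * H' ^ θ * H ^ (-w) := by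
      rw [abs_mul, abs_of_pos hv2r']
      exact mul_le_mul hv3' hv4 (abs_nonneg _) (by positivity)
    have h5 : |(v.2 : ℝ) * form k t v'| ≤ B * H ^ θ * H' ^ (-w) := by
      rw [abs_mul, abs_of_pos hv2r]
      exact mul_le_mul hv3 hv4' (abs_nonneg _) (by positivity)
    have h6 : H ^ θ ≤ H' ^ θ := Real.rpow_le_rpow hH0.le hle hθ0
    have h7 : H' ^ (-w) ≤ H ^ (-w) := Real.rpow_le_rpow_of_nonpos hH0 hle (by linarith)
    have h8 : B * H ^ θ * H' ^ (-w) ≤ B * H' ^ θ * H ^ (-w) := by gcongr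
    refine (abs_sub _ _).trans ?_
    linarith
  have h4 : c ≤ (2 * B) ^ (m + 1 + η) * (H ^ (θ * (m + η) - w) * H' ^ (θ + m + η)) := by
    have hA0 : 0 < A ^ ((m : ℝ) + η) := by positivity
    calc c ≤ A ^ ((m : ℝ) + η) * |∑ j, (u j : ℝ) * Real.exp (k j)| := h2
      _ ≤ A ^ ((m : ℝ) + η) * (2 * B * H' ^ θ * H ^ (-w)) := by gcongr
      _ = _ := by
          have hB0 : 0 < 2 * B := by linarith
          rw [hA, Real.mul_rpow hB0.le (by positivity), Real.mul_rpow (by positivity) hH0'.le,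
            ← Real.rpow_mul hH0.le]
          have e5 : (2 * B) ^ ((m : ℝ) + 1 + η) = (2 * B) ^ ((m : ℝ) + η) * (2 * B) := by
            rw [← Real.rpow_add_one hB0.ne']
            congr 1
            ring
          have e6 : H ^ (θ * ((m : ℝ) + η) - w) = H ^ (θ * ((m : ℝ) + η)) * H ^ (-w) := by
            rw [← Real.rpow_add hH0]
            congr 1
          have e7 : H' ^ (θ + (m : ℝ) + η) = H' ^ ((m : ℝ) + η) * H' ^ θ := by
            rw [← Real.rpow_add hH0']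
            congr 1
            ring
          rw [e5, e6, e7]
          ring
  -- conclusion
  have hBp : 0 < (2 * B) ^ ((m : ℝ) + 1 + η) := by positivity
  have h5 : c / (2 * B) ^ ((m : ℝ) + 1 + η) * H ^ (w - θ * (m + η)) ≤ H' ^ (θ + m + η) := by
    rw [div_mul_eq_mul_div, div_le_iff₀ hBp]
    have e8 : H ^ (θ * ((m : ℝ) + η) - w) * H ^ (w - θ * (m + η)) = 1 := by
      rw [← Real.rpow_add hH0, sub_add_sub_cancel, sub_self, Real.rpow_zero]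
    have hHp : 0 < H ^ (w - θ * (m + η)) := by positivity
    calc c * H ^ (w - θ * (m + η)) ≤ (2 * B) ^ ((m : ℝ) + 1 + η) *
        (H ^ (θ * (m + η) - w) * H' ^ (θ + m + η)) * H ^ (w - θ * (m + η)) := by gcongr
      _ = (2 * B) ^ ((m : ℝ) + 1 + η) * H' ^ (θ + m + η) *
          (H ^ (θ * ((m : ℝ) + η) - w) * H ^ (w - θ * (m + η))) := by ring
      _ = _ := by rw [e8]; ring
  have h6 := Real.rpow_le_rpow (by positivity) h5 (show 0 ≤ 1 / (θ + m + η) by positivity)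
  rw [← Real.rpow_mul hH0'.le, mul_one_div_cancel hs.ne', Real.rpow_one,
    Real.mul_rpow (by positivity) (by positivity), ← hC, ← Real.rpow_mul hH0.le,
    mul_one_div] at h6
  exact h6

lemma ht_pos (v : (Fin (m + 1) → ℤ) × ℤ) (hv : 0 < v.2) : (1 : ℝ) ≤ ht v := by
  have h1 : 1 ≤ ht v := (show 1 ≤ v.2.natAbs by omega).trans (le_max_right _ _)
  exact_mod_cast h1

theorem sparse_lin (k : Fin (m + 1) → ℤ) (hinj : Function.Injective k) (hk0 : k 0 = 0)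
    (hk : ∀ i, 0 ≤ k i) (B θ w ρ : ℝ) (hB : 1 ≤ B) (hθ0 : 0 ≤ θ) (hθ1 : θ ≤ 1)
    (hρ : 1 < ρ) (hw : ρ * (m + θ) < w - θ * m) :
    ∃ H₀ : ℝ, 3 ≤ H₀ ∧ ∀ t X : ℝ, 3 ≤ X →
      {v ∈ Near k t B θ w | H₀ ≤ (ht v : ℝ) ∧ (ht v : ℝ) ≤ X}.Finite ∧
      ({v ∈ Near k t B θ w | H₀ ≤ (ht v : ℝ) ∧ (ht v : ℝ) ≤ X}.ncard : ℝ) ≤
        Real.log (Real.log X) / Real.log ρ + 1 := by
  have hm : (0 : ℝ) ≤ m := Nat.cast_nonneg _
  have hρ0 : 0 < ρ := by linarith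
  have hw0 : 0 ≤ w := by
    have h1 : 0 ≤ ρ * (m + θ) := by positivity
    have h2 : 0 ≤ θ * m := by positivity
    linarith
  obtain ⟨η, hη⟩ : ∃ η : ℝ, η = (w - θ * m - ρ * (m + θ)) / (2 * (ρ + θ)) := ⟨_, rfl⟩
  have hη0 : 0 < η := by
    rw [hη]
    have : 0 < w - θ * m - ρ * (m + θ) := by linarith
    positivity
  have hγ : ρ < (w - θ * (m + η)) / (θ + m + η) := by
    rw [lt_div_iff₀ (by linarith)]
    have h1 : η * (2 * (ρ + θ)) = w - θ * m - ρ * (m + θ) := by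
      rw [hη]
      field_simp
    nlinarith
  obtain ⟨C, hC, hgap⟩ := gap k hinj hk0 hk B θ w η hB hθ0 hθ1 hw0 hη0
  obtain ⟨H₀, hH3, hH⟩ := count_unif C _ ρ hC hρ hγ
  refine ⟨H₀, hH3, fun t X hX => hH (Near k t B θ w) (fun v => (ht v : ℝ)) ?_ X hX⟩
  intro v hv v' hv' hne hle h3
  exact hgap t v hv v' hv' hne hle (ht_pos v hv.2.1)

end Pool.Agent.X142.LI
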