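import Mathlib
import Pool.Agent.W472.AC.EMeas2

/-!
# Counting near relations `a + b e + c t` of exponent between `2` and `3`
-/

set_option autoImplicit false

namespace Pool.Agent.X142.LI

open Finset

/-- height of a triple -/
def ht3 (v : ℤ × ℤ × ℤ) : ℕ := max v.1.natAbs (max v.2.1.natAbs v.2.2.natAbs)

/-- no common divisor -/
def Prim3 (v : ℤ × ℤ × ℤ) : Prop := ∀ d : ℤ, d ∣ v.1 → d ∣ v.2.1 → d ∣ v.2.2 → IsUnit d

/-- the form `a + b e + c t` -/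
noncomputable def form3 (t : ℝ) (v : ℤ × ℤ × ℤ) : ℝ := v.1 + v.2.1 * Real.exp 1 + v.2.2 * t

/-- near relations -/
def Near3 (t w : ℝ) : Set (ℤ × ℤ × ℤ) :=
  {v | Prim3 v ∧ 0 < v.2.2 ∧ |form3 t v| ≤ (ht3 v : ℝ) ^ (-w)}

lemma e_lin (η : ℝ) (hη : 0 < η) : ∃ c : ℝ, 0 < c ∧ ∀ A B : ℤ, (A ≠ 0 ∨ B ≠ 0) → ∀ H : ℝ, 1 ≤ H →
    |(A : ℝ)| ≤ H → |(B : ℝ)| ≤ H → c ≤ H ^ (1 + η) * |(A : ℝ) + B * Real.exp 1| := by
  obtain ⟨c, hc, h⟩ := Pool.Agent.W472.AC.e_meas 1 ![0, 1] (by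
    intro i j hij
    fin_cases i <;> fin_cases j <;> simp_all) rfl (by
    intro i
    fin_cases i <;> simp) η hη
  refine ⟨c, hc, fun A B hAB H hH hA hB => ?_⟩
  have h1 := h ![A, B] (by
    intro h0
    have e0 := congrFun h0 0
    have e1 := congrFun h0 1
    simp at e0 e1
    rcases hAB with h | h
    · exact h e0
    · exact h e1) H hH (by
    intro j
    fin_cases j
    · simpa using hA
    · simpa using hB)
  simpa [Fin.sum_univ_two] using h1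

lemma abs_fst (v : ℤ × ℤ × ℤ) : |(v.1 : ℝ)| ≤ ht3 v := by
  rw [← Int.cast_abs, Int.abs_eq_natAbs]
  exact_mod_cast le_max_left _ _

lemma abs_snd (v : ℤ × ℤ × ℤ) : |(v.2.1 : ℝ)| ≤ ht3 v := by
  rw [← Int.cast_abs, Int.abs_eq_natAbs]
  exact_mod_cast (le_max_left _ _).trans (le_max_right _ _)

lemma abs_trd (v : ℤ × ℤ × ℤ) : |(v.2.2 : ℝ)| ≤ ht3 v := by
  rw [← Int.cast_abs, Int.abs_eq_natAbs]
  exact_mod_cast (le_max_right _ _).trans (le_max_right _ _)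

lemma fin_ht3 (Y : ℝ) : {v : ℤ × ℤ × ℤ | (ht3 v : ℝ) ≤ Y}.Finite := by
  refine ((Set.finite_Icc (-⌈Y⌉) ⌈Y⌉).prod ((Set.finite_Icc (-⌈Y⌉) ⌈Y⌉).prod
    (Set.finite_Icc (-⌈Y⌉) ⌈Y⌉))).subset ?_
  intro v hv
  have key : ∀ x : ℤ, |(x : ℝ)| ≤ Y → x ∈ Set.Icc (-⌈Y⌉) ⌈Y⌉ := by
    intro x hx
    have h1 := (abs_le.1 (hx.trans (Int.le_ceil Y)))
    exact ⟨by exact_mod_cast h1.1, by exact_mod_cast h1.2⟩
  exact ⟨key _ ((abs_fst v).trans hv), key _ ((abs_snd v).trans hv), key _ ((abs_trd v).trans hv)⟩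

/-- three near relations of the same size are linearly dependent -/
lemma det_zero (t Y ε : ℝ) (v v' v'' : ℤ × ℤ × ℤ) (h1 : (ht3 v : ℝ) ≤ Y) (h2 : (ht3 v' : ℝ) ≤ Y)
    (h3 : (ht3 v'' : ℝ) ≤ Y) (e1 : |form3 t v| ≤ ε) (e2 : |form3 t v'| ≤ ε)
    (e3 : |form3 t v''| ≤ ε) (hY : 6 * (ε * Y ^ 2) < 1) :
    v.1 * (v'.2.1 * v''.2.2 - v''.2.1 * v'.2.2) - v'.1 * (v.2.1 * v''.2.2 - v''.2.1 * v.2.2) +
      v''.1 * (v.2.1 * v'.2.2 - v'.2.1 * v.2.2) = 0 := by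
  have hY0 : 0 ≤ Y := (Nat.cast_nonneg _).trans h1
  have hε : 0 ≤ ε := (abs_nonneg _).trans e1
  have key : ∀ x y : ℤ × ℤ × ℤ, (ht3 x : ℝ) ≤ Y → (ht3 y : ℝ) ≤ Y →
      |((x.2.1 : ℝ) * y.2.2 - y.2.1 * x.2.2)| ≤ 2 * Y ^ 2 := by
    intro x y hx hy
    have a1 := (abs_snd x).trans hx
    have a2 := (abs_trd x).trans hx
    have a3 := (abs_snd y).trans hy
    have a4 := (abs_trd y).trans hy
    refine (abs_sub _ _).trans ?_
    rw [abs_mul, abs_mul]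
    have b1 := mul_le_mul a1 a4 (abs_nonneg _) hY0
    have b2 := mul_le_mul a3 a2 (abs_nonneg _) hY0
    nlinarith
  obtain ⟨D, hD⟩ : ∃ D : ℤ, D = v.1 * (v'.2.1 * v''.2.2 - v''.2.1 * v'.2.2) -
      v'.1 * (v.2.1 * v''.2.2 - v''.2.1 * v.2.2) +
      v''.1 * (v.2.1 * v'.2.2 - v'.2.1 * v.2.2) := ⟨_, rfl⟩
  rw [← hD]
  have hDr : (D : ℝ) = form3 t v * ((v'.2.1 : ℝ) * v''.2.2 - v''.2.1 * v'.2.2) -
      form3 t v' * ((v.2.1 : ℝ) * v''.2.2 - v''.2.1 * v.2.2) +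
      form3 t v'' * ((v.2.1 : ℝ) * v'.2.2 - v'.2.1 * v.2.2) := by
    rw [hD]
    unfold form3
    push_cast
    ring
  have hlt : |(D : ℝ)| < 1 := by
    rw [hDr]
    have m1 : |form3 t v * ((v'.2.1 : ℝ) * v''.2.2 - v''.2.1 * v'.2.2)| ≤ ε * (2 * Y ^ 2) := by
      rw [abs_mul]
      exact mul_le_mul e1 (key _ _ h2 h3) (abs_nonneg _) hε
    have m2 : |form3 t v' * ((v.2.1 : ℝ) * v''.2.2 - v''.2.1 * v.2.2)| ≤ ε * (2 * Y ^ 2) := by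
      rw [abs_mul]
      exact mul_le_mul e2 (key _ _ h1 h3) (abs_nonneg _) hε
    have m3 : |form3 t v'' * ((v.2.1 : ℝ) * v'.2.2 - v'.2.1 * v.2.2)| ≤ ε * (2 * Y ^ 2) := by
      rw [abs_mul]
      exact mul_le_mul e3 (key _ _ h1 h2) (abs_nonneg _) hε
    refine lt_of_le_of_lt ((abs_add_le _ _).trans (add_le_add (abs_sub _ _) le_rfl)) ?_
    linarith
  have h4 : |D| < 1 := by exact_mod_cast hlt
  exact Int.abs_lt_one_iff.1 h4

/-- fibres of the elimination map -/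
lemma fibre (v₁ v v' : ℤ × ℤ × ℤ) (hp : Prim3 v₁) (h0 : 0 < v₁.2.2)
    (h1 : v₁.2.2 * v.1 - v.2.2 * v₁.1 = v₁.2.2 * v'.1 - v'.2.2 * v₁.1)
    (h2 : v₁.2.2 * v.2.1 - v.2.2 * v₁.2.1 = v₁.2.2 * v'.2.1 - v'.2.2 * v₁.2.1) :
    ∃ q : ℤ, v.1 - v'.1 = q * v₁.1 ∧ v.2.1 - v'.2.1 = q * v₁.2.1 ∧ v.2.2 - v'.2.2 = q * v₁.2.2 := by
  obtain ⟨g, hg⟩ : ∃ g : ℤ, g = Int.gcd v₁.2.2 (v.2.2 - v'.2.2) := ⟨_, rfl⟩
  have hg0 : g ≠ 0 := by
    rw [hg]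
    intro h
    have := Int.gcd_eq_zero_iff.1 (by exact_mod_cast h : Int.gcd v₁.2.2 (v.2.2 - v'.2.2) = 0)
    omega
  obtain ⟨d, hd⟩ : g ∣ v₁.2.2 := by rw [hg]; exact Int.gcd_dvd_left ..
  obtain ⟨s, hs⟩ : g ∣ v.2.2 - v'.2.2 := by rw [hg]; exact Int.gcd_dvd_right ..
  have hcop : IsCoprime d s := by
    rw [Int.isCoprime_iff_gcd_eq_one]
    have h1 : Int.gcd (g * d) (g * s) = g.natAbs * Int.gcd d s := Int.gcd_mul_left ..
    rw [← hd, ← hs] at h1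
    have h3 : g.natAbs = Int.gcd v₁.2.2 (v.2.2 - v'.2.2) := by omega
    have h4 : 0 < g.natAbs := Int.natAbs_pos.2 hg0
    rw [← h3] at h1
    nlinarith
  have e1 : d * (v.1 - v'.1) = s * v₁.1 := by
    have h3 : v₁.2.2 * (v.1 - v'.1) = (v.2.2 - v'.2.2) * v₁.1 := by linarith
    rw [hd, hs] at h3
    have h4 : g * (d * (v.1 - v'.1)) = g * (s * v₁.1) := by linarith
    exact mul_left_cancel₀ hg0 h4
  have e2 : d * (v.2.1 - v'.2.1) = s * v₁.2.1 := by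
    have h3 : v₁.2.2 * (v.2.1 - v'.2.1) = (v.2.2 - v'.2.2) * v₁.2.1 := by linarith
    rw [hd, hs] at h3
    have h4 : g * (d * (v.2.1 - v'.2.1)) = g * (s * v₁.2.1) := by linarith
    exact mul_left_cancel₀ hg0 h4
  have hu : IsUnit d := hp d (hcop.dvd_of_dvd_mul_left ⟨_, e1.symm⟩)
    (hcop.dvd_of_dvd_mul_left ⟨_, e2.symm⟩) ⟨g, by rw [hd]; ring⟩
  rcases Int.isUnit_iff.1 hu with h | h
  · refine ⟨s, ?_, ?_, ?_⟩
    · rw [h] at e1; linarith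
    · rw [h] at e2; linarith
    · rw [hs, hd, h]; ring
  · refine ⟨-s, ?_, ?_, ?_⟩
    · rw [h] at e1; linarith
    · rw [h] at e2; linarith
    · rw [hs, hd, h]; ring

/-- parallel integer vectors in the plane are multiples of one vector -/
lemma parallel (U : Set (ℤ × ℤ)) (hU : ∀ u ∈ U, ∀ u' ∈ U, u.1 * u'.2 = u'.1 * u.2) :
    ∃ g : ℤ × ℤ, (g.1 ≠ 0 ∨ g.2 ≠ 0) ∧ ∀ u ∈ U, ∃ k : ℤ, u.1 = k * g.1 ∧ u.2 = k * g.2 := by
  by_cases h : ∃ u ∈ U, u.1 ≠ 0 ∨ u.2 ≠ 0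
  · obtain ⟨u₀, hu₀, hne⟩ := h
    obtain ⟨d, hd⟩ : ∃ d : ℤ, d = Int.gcd u₀.1 u₀.2 := ⟨_, rfl⟩
    have hd0 : d ≠ 0 := by
      rw [hd]
      intro h
      have := Int.gcd_eq_zero_iff.1 (by exact_mod_cast h : Int.gcd u₀.1 u₀.2 = 0)
      rcases hne with h | h
      · exact h this.1
      · exact h this.2
    obtain ⟨x, hx⟩ : d ∣ u₀.1 := by rw [hd]; exact Int.gcd_dvd_left ..
    obtain ⟨y, hy⟩ : d ∣ u₀.2 := by rw [hd]; exact Int.gcd_dvd_right ..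
    have hcop : IsCoprime x y := by
      rw [Int.isCoprime_iff_gcd_eq_one]
      have h1 : Int.gcd (d * x) (d * y) = d.natAbs * Int.gcd x y := Int.gcd_mul_left ..
      rw [← hx, ← hy] at h1
      have h3 : d.natAbs = Int.gcd u₀.1 u₀.2 := by omega
      have h4 : 0 < d.natAbs := Int.natAbs_pos.2 hd0
      rw [← h3] at h1
      nlinarith
    refine ⟨(x, y), ?_, fun u hu => ?_⟩
    · by_contra hcon
      push Not at hcon
      obtain ⟨h1, h2⟩ := hcon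
      simp only at h1 h2
      rw [h1, h2] at hcop
      obtain ⟨a, b, hab⟩ := hcop
      simp at hab
    · have h1 := hU u hu u₀ hu₀
      rw [hx, hy] at h1
      have h2 : u.1 * y = x * u.2 := by
        have h3 : d * (u.1 * y) = d * (x * u.2) := by linarith
        exact mul_left_cancel₀ hd0 h3
      obtain ⟨k, hk⟩ : x ∣ u.1 := hcop.dvd_of_dvd_mul_right ⟨_, h2⟩
      by_cases hx0 : x = 0
      · have hy1 : IsUnit y := by
          rw [hx0] at hcop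
          exact isCoprime_zero_left.1 hcop
        rcases Int.isUnit_iff.1 hy1 with h | h
        · exact ⟨u.2, by rw [hk, hx0]; ring, by simp [h]⟩
        · exact ⟨-u.2, by rw [hk, hx0]; ring, by simp [h]⟩
      · refine ⟨k, by rw [hk]; ring, ?_⟩
        rw [hk] at h2
        have h3 : x * (k * y) = x * u.2 := by linarith
        exact (mul_left_cancel₀ hx0 h3).symm
  · push Not at h
    refine ⟨(1, 0), Or.inl one_ne_zero, fun u hu => ⟨0, ?_, ?_⟩⟩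
    · rw [(h u hu).1]; ring
    · rw [(h u hu).2]; ring

end Pool.Agent.X142.LI
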