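import Mathlib
import Pool.Agent.X142.LI.Plane

/-!
# Counting near relations in a dyadic window
-/

set_option autoImplicit false

namespace Pool.Agent.X142.LI

open Finset

/-- the bound for the multiplier -/
lemma mult_bound (c η w X G : ℝ) (k : ℝ) (hc : 0 < c) (hη : 0 < η) (hX : 1 ≤ X) (hG : 1 ≤ G)
    (z : ℝ) (hz : 0 ≤ z) (hcz : c ≤ G ^ (1 + η) * z) (h1 : |k| * G ≤ 8 * X ^ (2 : ℝ))
    (h2 : |k| * z ≤ 4 * (X * X ^ (-w))) (hk : k = 0 ∨ 1 ≤ |k|) :
    |k| ≤ Real.sqrt (32 * 8 ^ η / c) * X ^ ((3 - w) / 2 + η) := by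
  have hX0 : 0 < X := by linarith
  have hG0 : 0 < G := by linarith
  rcases hk with rfl | hk
  · simp only [abs_zero]
    positivity
  · have hG8 : G ≤ 8 * X ^ (2 : ℝ) := by nlinarith
    have h3 : |k| * c ≤ G ^ (1 + η) * (4 * (X * X ^ (-w))) := by
      calc |k| * c ≤ |k| * (G ^ (1 + η) * z) := by gcongr
        _ = G ^ (1 + η) * (|k| * z) := by ring
        _ ≤ _ := by gcongr
    have h4 : |k| ^ 2 * G * c ≤ G * G ^ η * (32 * (X ^ (2 : ℝ) * (X * X ^ (-w)))) := by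
      calc |k| ^ 2 * G * c = (|k| * G) * (|k| * c) := by ring
        _ ≤ (8 * X ^ (2 : ℝ)) * (G ^ (1 + η) * (4 * (X * X ^ (-w)))) := by gcongr
        _ = G ^ (1 + η) * (32 * (X ^ (2 : ℝ) * (X * X ^ (-w)))) := by ring
        _ = _ := by rw [Real.rpow_add hG0, Real.rpow_one]
    have h5 : |k| ^ 2 * c ≤ G ^ η * (32 * (X ^ (2 : ℝ) * (X * X ^ (-w)))) := by
      have : G * (|k| ^ 2 * c) ≤ G * (G ^ η * (32 * (X ^ (2 : ℝ) * (X * X ^ (-w))))) := by
        calc G * (|k| ^ 2 * c) = |k| ^ 2 * G * c := by ring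
          _ ≤ _ := h4
          _ = _ := by ring
      exact le_of_mul_le_mul_left this hG0
    have h6 : G ^ η ≤ 8 ^ η * X ^ (2 * η) := by
      calc G ^ η ≤ (8 * X ^ (2 : ℝ)) ^ η := Real.rpow_le_rpow hG0.le hG8 hη.le
        _ = _ := by rw [Real.mul_rpow (by norm_num) (by positivity), ← Real.rpow_mul hX0.le]
    have h7 : |k| ^ 2 ≤ (32 * 8 ^ η / c) * (X ^ ((3 - w) / 2 + η)) ^ 2 := by
      rw [div_mul_eq_mul_div, le_div_iff₀ hc]
      have e1 : (X ^ ((3 - w) / 2 + η)) ^ 2 = X ^ (2 * η) * (X ^ (2 : ℝ) * (X * X ^ (-w))) := by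
        rw [← Real.rpow_natCast, ← Real.rpow_mul hX0.le]
        nth_rewrite 4 [← Real.rpow_one X]
        rw [← Real.rpow_add hX0, ← Real.rpow_add hX0, ← Real.rpow_add hX0]
        congr 1
        push_cast
        ring
      rw [e1]
      calc |k| ^ 2 * c ≤ G ^ η * (32 * (X ^ (2 : ℝ) * (X * X ^ (-w)))) := h5
        _ ≤ (8 ^ η * X ^ (2 * η)) * (32 * (X ^ (2 : ℝ) * (X * X ^ (-w)))) := by gcongr
        _ = _ := by ring
    have h8 := Real.sqrt_le_sqrt h7
    rw [Real.sqrt_sq (abs_nonneg _), Real.sqrt_mul (by positivity), Real.sqrt_sq (by positivity)] at h8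
    exact h8

lemma ht3_pos {v : ℤ × ℤ × ℤ} (hv : 0 < v.2.2) : (1 : ℝ) ≤ ht3 v := by
  have h1 : 1 ≤ ht3 v :=
    (show 1 ≤ v.2.2.natAbs by omega).trans ((le_max_right _ _).trans (le_max_right _ _))
  exact_mod_cast h1

lemma abs_ht3_mul_le (v : ℤ × ℤ × ℤ) (q Y : ℝ) (h1 : |q| * |(v.1 : ℝ)| ≤ Y)
    (h2 : |q| * |(v.2.1 : ℝ)| ≤ Y) (h3 : |q| * |(v.2.2 : ℝ)| ≤ Y) : |q| * (ht3 v : ℝ) ≤ Y := by
  have e : ∀ x : ℤ, |(x : ℝ)| = (x.natAbs : ℝ) := fun x => by
    rw [← Int.cast_abs, Int.abs_eq_natAbs]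
    exact Int.cast_natCast _
  rw [e] at h1 h2 h3
  unfold ht3
  rcases max_choice v.1.natAbs (max v.2.1.natAbs v.2.2.natAbs) with h | h
  · rw [h]; exact h1
  · rw [h]
    rcases max_choice v.2.1.natAbs v.2.2.natAbs with h' | h'
    · rw [h']; exact h2
    · rw [h']; exact h3

/-- the window -/
def Win (t w X : ℝ) : Set (ℤ × ℤ × ℤ) :=
  {v | v ∈ Near3 t w ∧ X ≤ (ht3 v : ℝ) ∧ (ht3 v : ℝ) ≤ 2 * X}

lemma win_finite (t w X : ℝ) : (Win t w X).Finite :=
  (fin_ht3 (2 * X)).subset fun _ hv => hv.2.2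

theorem window (w η : ℝ) (hw : 2 < w) (hw3 : w ≤ 3) (hη : 0 < η) :
    ∃ C : ℝ, 0 < C ∧ ∀ t X : ℝ, 1 ≤ X → ((Win t w X).ncard : ℝ) ≤ C * X ^ ((3 - w) / 2 + η) := by
  classical
  obtain ⟨c, hc, hlin⟩ := e_lin η hη
  obtain ⟨X₁, hX₁⟩ : ∃ X₁ : ℝ, X₁ = (25 : ℝ) ^ (1 / (w - 2)) := ⟨_, rfl⟩
  have hw2 : 0 < w - 2 := by linarith
  have hX₁0 : 0 < X₁ := by rw [hX₁]; positivity
  obtain ⟨M, hM⟩ : ∃ M : ℝ, M = Real.sqrt (32 * 8 ^ η / c) := ⟨_, rfl⟩
  have hM0 : 0 ≤ M := by rw [hM]; positivity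
  obtain ⟨N, hN⟩ : ∃ N : ℕ, N = {v : ℤ × ℤ × ℤ | (ht3 v : ℝ) ≤ 2 * X₁}.ncard := ⟨_, rfl⟩
  have hs : 0 ≤ (3 - w) / 2 + η := by linarith
  refine ⟨N + (18 * M + 9), by positivity, fun t X hX => ?_⟩
  have hX0 : 0 < X := by linarith
  have hXs : 1 ≤ X ^ ((3 - w) / 2 + η) := Real.one_le_rpow hX hs
  have hN0 : (0 : ℝ) ≤ N := Nat.cast_nonneg _
  by_cases hXX : X < X₁
  · have h1 : (Win t w X).ncard ≤ N := by
      rw [hN]
      refine Set.ncard_le_ncard (fun v hv => ?_) (fin_ht3 _)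
      exact hv.2.2.trans (by linarith)
    have h2 : ((Win t w X).ncard : ℝ) ≤ N := by exact_mod_cast h1
    nlinarith
  · rw [not_lt] at hXX
    have hsmall : 6 * (X ^ (-w) * (2 * X) ^ 2) < 1 := by
      have h1 : (25 : ℝ) ≤ X ^ (w - 2) := by
        calc (25 : ℝ) = X₁ ^ (w - 2) := by
              rw [hX₁, ← Real.rpow_mul (by norm_num), one_div_mul_cancel hw2.ne', Real.rpow_one]
          _ ≤ _ := Real.rpow_le_rpow hX₁0.le hXX hw2.le
      have h2 : X ^ (-w) * X ^ 2 * X ^ (w - 2) = 1 := by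
        rw [← Real.rpow_natCast X 2, ← Real.rpow_add hX0, ← Real.rpow_add hX0]
        have : -w + ((2 : ℕ) : ℝ) + (w - 2) = 0 := by push_cast; ring
        rw [this, Real.rpow_zero]
      have h3 : 0 < X ^ (-w) * X ^ 2 := by positivity
      nlinarith
    rcases Set.eq_empty_or_nonempty (Win t w X) with he | ⟨v₁, hv₁⟩
    · rw [he, Set.ncard_empty]
      push_cast
      positivity
    -- the elimination map
    have hw1 := hv₁
    obtain ⟨⟨hp₁, hc₁, hf₁⟩, hl₁, hu₁⟩ := hv₁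
    have hf : ∀ v ∈ Win t w X, |form3 t v| ≤ X ^ (-w) := fun v hv =>
      hv.1.2.2.trans (Real.rpow_le_rpow_of_nonpos hX0 hv.2.1 (by linarith))
    obtain ⟨u, hu⟩ : ∃ u : ℤ × ℤ × ℤ → ℤ × ℤ, u = fun v =>
      (v₁.2.2 * v.1 - v.2.2 * v₁.1, v₁.2.2 * v.2.1 - v.2.2 * v₁.2.1) := ⟨_, rfl⟩
    have hpar : ∀ x ∈ u '' Win t w X, ∀ y ∈ u '' Win t w X, x.1 * y.2 = y.1 * x.2 := by
      rintro _ ⟨v, hv, rfl⟩ _ ⟨v', hv', rfl⟩
      have h1 := det_zero t (2 * X) (X ^ (-w)) v₁ v v' hu₁ hv.2.2 hv'.2.2 (hf v₁ hw1) (hf v hv)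
        (hf v' hv') hsmall
      rw [hu]
      simp only
      have h2 : (v₁.2.2 * v.1 - v.2.2 * v₁.1) * (v₁.2.2 * v'.2.1 - v'.2.2 * v₁.2.1) -
          (v₁.2.2 * v'.1 - v'.2.2 * v₁.1) * (v₁.2.2 * v.2.1 - v.2.2 * v₁.2.1) =
          v₁.2.2 * (v₁.1 * (v.2.1 * v'.2.2 - v'.2.1 * v.2.2) -
            v.1 * (v₁.2.1 * v'.2.2 - v'.2.1 * v₁.2.2) +
            v'.1 * (v₁.2.1 * v.2.2 - v.2.1 * v₁.2.2)) := by ring
      rw [h1, mul_zero] at h2
      linarith
    obtain ⟨g, hg, hk⟩ := parallel _ hpar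
    have hk' : ∀ v ∈ Win t w X, ∃ k : ℤ, v₁.2.2 * v.1 - v.2.2 * v₁.1 = k * g.1 ∧
        v₁.2.2 * v.2.1 - v.2.2 * v₁.2.1 = k * g.2 := by
      intro v hv
      have := hk (u v) ⟨v, hv, rfl⟩
      rw [hu] at this
      exact this
    choose! kf hkf using hk'
    -- size of the multiplier
    obtain ⟨G, hG⟩ : ∃ G : ℝ, G = max |(g.1 : ℝ)| |(g.2 : ℝ)| := ⟨_, rfl⟩
    have hG1 : 1 ≤ G := by
      rw [hG]
      rcases hg with h | h
      · refine le_trans ?_ (le_max_left _ _)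
        rw [← Int.cast_abs]
        exact_mod_cast Int.one_le_abs h
      · refine le_trans ?_ (le_max_right _ _)
        rw [← Int.cast_abs]
        exact_mod_cast Int.one_le_abs h
    have hcz := hlin g.1 g.2 hg G hG1 (by rw [hG]; exact le_max_left _ _)
      (by rw [hG]; exact le_max_right _ _)
    have hX2 : X ^ (2 : ℝ) = X ^ 2 := by
      rw [← Real.rpow_natCast X 2]
      norm_num
    have hkb : ∀ v ∈ Win t w X, |(kf v : ℝ)| ≤ M * X ^ ((3 - w) / 2 + η) := by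
      intro v hv
      obtain ⟨e1, e2⟩ := hkf v hv
      have a1 := (abs_fst v).trans hv.2.2
      have a2 := (abs_snd v).trans hv.2.2
      have a3 := (abs_trd v).trans hv.2.2
      have b1 := (abs_fst v₁).trans hu₁
      have b2 := (abs_snd v₁).trans hu₁
      have b3 := (abs_trd v₁).trans hu₁
      have e1r : (v₁.2.2 : ℝ) * v.1 - v.2.2 * v₁.1 = kf v * g.1 := by exact_mod_cast e1
      have e2r : (v₁.2.2 : ℝ) * v.2.1 - v.2.2 * v₁.2.1 = kf v * g.2 := by exact_mod_cast e2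
      have m : ∀ p q r s : ℝ, |p| ≤ 2 * X → |q| ≤ 2 * X → |r| ≤ 2 * X → |s| ≤ 2 * X →
          |p * q - r * s| ≤ 8 * X ^ (2 : ℝ) := by
        intro p q r s hp hq hr hs
        rw [hX2]
        refine (abs_sub _ _).trans ?_
        rw [abs_mul, abs_mul]
        have := mul_le_mul hp hq (abs_nonneg _) (by positivity)
        have := mul_le_mul hr hs (abs_nonneg _) (by positivity)
        nlinarith
      rw [hM]
      refine mult_bound c η w X G _ hc hη hX hG1 _ (abs_nonneg _) hcz ?_ ?_ ?_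
      · rw [hG]
        rcases max_choice |(g.1 : ℝ)| |(g.2 : ℝ)| with h | h
        · rw [h, ← abs_mul, ← e1r]
          exact m _ _ _ _ b3 a1 a3 b1
        · rw [h, ← abs_mul, ← e2r]
          exact m _ _ _ _ b3 a2 a3 b2
      · rw [← abs_mul]
        have e3 : (kf v : ℝ) * (g.1 + g.2 * Real.exp 1) =
            v₁.2.2 * form3 t v - v.2.2 * form3 t v₁ := by
          unfold form3
          linear_combination -e1r - Real.exp 1 * e2r
        rw [e3]
        refine (abs_sub _ _).trans ?_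
        rw [abs_mul, abs_mul]
        have := mul_le_mul b3 (hf v hv) (abs_nonneg _) (by positivity)
        have := mul_le_mul a3 (hf v₁ hw1) (abs_nonneg _) (by positivity)
        nlinarith
      · by_cases h0 : kf v = 0
        · left; rw [h0]; simp
        · right
          rw [← Int.cast_abs]
          exact_mod_cast Int.one_le_abs h0
    -- counting
    have hfin := win_finite t w X
    obtain ⟨S, hS⟩ : ∃ S : Finset (ℤ × ℤ × ℤ), S = hfin.toFinset := ⟨_, rfl⟩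
    have hmem : ∀ v, v ∈ S ↔ v ∈ Win t w X := fun v => by rw [hS]; exact hfin.mem_toFinset
    have hcard : (Win t w X).ncard = S.card := by
      rw [hS, Set.ncard_eq_toFinset_card _ hfin]
    have hfib : ∀ a ∈ S.image kf, (S.filter fun x => kf x = a).card ≤ 9 := by
      intro a ha
      obtain ⟨x₀, hx₀, rfl⟩ := Finset.mem_image.1 ha
      have hx₀' := (hmem x₀).1 hx₀
      have hq : ∀ x ∈ S.filter (fun x => kf x = kf x₀), ∃ q : ℤ, q ∈ Finset.Icc (-4 : ℤ) 4 ∧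
          x.1 - x₀.1 = q * v₁.1 ∧ x.2.1 - x₀.2.1 = q * v₁.2.1 ∧ x.2.2 - x₀.2.2 = q * v₁.2.2 := by
        intro x hx
        obtain ⟨hxS, hxk⟩ := Finset.mem_filter.1 hx
        have hx' := (hmem x).1 hxS
        obtain ⟨e1, e2⟩ := hkf x hx'
        obtain ⟨f1, f2⟩ := hkf x₀ hx₀'
        rw [hxk] at e1 e2
        obtain ⟨q, q1, q2, q3⟩ := fibre v₁ x x₀ hp₁ hc₁ (e1.trans f1.symm) (e2.trans f2.symm)
        refine ⟨q, ?_, q1, q2, q3⟩
        have a1 := (abs_fst x).trans hx'.2.2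
        have a2 := (abs_snd x).trans hx'.2.2
        have a3 := (abs_trd x).trans hx'.2.2
        have b1 := (abs_fst x₀).trans hx₀'.2.2
        have b2 := (abs_snd x₀).trans hx₀'.2.2
        have b3 := (abs_trd x₀).trans hx₀'.2.2
        have r1 : |(q : ℝ)| * |(v₁.1 : ℝ)| ≤ 4 * X := by
          rw [← abs_mul]
          have : (q : ℝ) * v₁.1 = x.1 - x₀.1 := by exact_mod_cast q1.symm
          rw [this]
          exact (abs_sub _ _).trans (by linarith)
        have r2 : |(q : ℝ)| * |(v₁.2.1 : ℝ)| ≤ 4 * X := by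
          rw [← abs_mul]
          have : (q : ℝ) * v₁.2.1 = x.2.1 - x₀.2.1 := by exact_mod_cast q2.symm
          rw [this]
          exact (abs_sub _ _).trans (by linarith)
        have r3 : |(q : ℝ)| * |(v₁.2.2 : ℝ)| ≤ 4 * X := by
          rw [← abs_mul]
          have : (q : ℝ) * v₁.2.2 = x.2.2 - x₀.2.2 := by exact_mod_cast q3.symm
          rw [this]
          exact (abs_sub _ _).trans (by linarith)
        have r4 := abs_ht3_mul_le v₁ q (4 * X) r1 r2 r3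
        have r5 : |(q : ℝ)| ≤ 4 := by
          have : |(q : ℝ)| * X ≤ 4 * X := by
            refine le_trans ?_ r4
            gcongr
          exact le_of_mul_le_mul_right this hX0
        rw [Finset.mem_Icc]
        have := abs_le.1 r5
        exact ⟨by exact_mod_cast this.1, by exact_mod_cast this.2⟩
      choose! q hq1 hq2 hq3 hq4 using hq
      have hle : (S.filter fun x => kf x = kf x₀).card ≤ (Finset.Icc (-4 : ℤ) 4).card := by
        refine Finset.card_le_card_of_injOn q (fun x hx => hq1 x hx) ?_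
        intro x hx y hy hxy
        have h1 := hq2 x hx
        have h2 := hq2 y hy
        have h3 := hq3 x hx
        have h4 := hq3 y hy
        have h5 := hq4 x hx
        have h6 := hq4 y hy
        rw [hxy] at h1 h3 h5
        exact Prod.ext (by linarith) (Prod.ext (by linarith) (by linarith))
      simpa using hle
    have h1 := Finset.card_le_mul_card_image S 9 hfib
    obtain ⟨K, hK⟩ : ∃ K : ℝ, K = M * X ^ ((3 - w) / 2 + η) := ⟨_, rfl⟩
    have hK0 : 0 ≤ K := by rw [hK]; positivity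
    have h2 : (S.image kf).card ≤ (Finset.Icc (-⌊K⌋) ⌊K⌋).card := by
      refine Finset.card_le_card fun a ha => ?_
      obtain ⟨x, hx, rfl⟩ := Finset.mem_image.1 ha
      have h3 := hkb x ((hmem x).1 hx)
      rw [← hK] at h3
      rw [Finset.mem_Icc]
      have h4 := abs_le.1 h3
      have h5 : kf x ≤ ⌊K⌋ := Int.le_floor.2 h4.2
      have h6 : -kf x ≤ ⌊K⌋ := Int.le_floor.2 (by push_cast; linarith [h4.1])
      exact ⟨by linarith, h5⟩
    rw [Int.card_Icc] at h2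
    have h3 : ((⌊K⌋ + 1 - -⌊K⌋).toNat : ℝ) ≤ 2 * K + 1 := by
      have hfl : 0 ≤ ⌊K⌋ := Int.floor_nonneg.2 hK0
      have h4 : ((⌊K⌋ + 1 - -⌊K⌋).toNat : ℤ) = 2 * ⌊K⌋ + 1 := by omega
      have h5 : ((⌊K⌋ + 1 - -⌊K⌋).toNat : ℝ) = 2 * (⌊K⌋ : ℝ) + 1 := by
        exact_mod_cast h4
      rw [h5]
      have := Int.floor_le K
      linarith
    have h4 : ((Win t w X).ncard : ℝ) ≤ 9 * (2 * K + 1) := by
      rw [hcard]
      have h5 : (S.card : ℝ) ≤ 9 * ((S.image kf).card : ℝ) := by exact_mod_cast h1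
      have h6 : ((S.image kf).card : ℝ) ≤ ((⌊K⌋ + 1 - -⌊K⌋).toNat : ℝ) := by exact_mod_cast h2
      linarith
    rw [hK] at h4
    nlinarith

end Pool.Agent.X142.LI
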