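import Mathlib
import Pool.Agent.X142.LI.Window

/-!
# Counting near relations of exponent between `2` and `3`
-/

set_option autoImplicit false

namespace Pool.Agent.X142.LI

theorem total (w η : ℝ) (hw : 2 < w) (hw3 : w ≤ 3) (hη : 0 < η) :
    ∃ C : ℝ, 0 < C ∧ ∀ t X : ℝ, 1 ≤ X → {v ∈ Near3 t w | (ht3 v : ℝ) ≤ X}.Finite ∧
      ({v ∈ Near3 t w | (ht3 v : ℝ) ≤ X}.ncard : ℝ) ≤ C * X ^ ((3 - w) / 2 + η) := by
  obtain ⟨C, hC, h⟩ := window w η hw hw3 hη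
  obtain ⟨s, hs⟩ : ∃ s : ℝ, s = (3 - w) / 2 + η := ⟨_, rfl⟩
  have hs0 : 0 < s := by rw [hs]; linarith
  rw [← hs] at h ⊢
  have h2s : 1 < (2 : ℝ) ^ s := Real.one_lt_rpow (by norm_num) hs0
  obtain ⟨A, hA⟩ : ∃ A : ℝ, A = C / (2 ^ s - 1) + C := ⟨_, rfl⟩
  have hA0 : 0 < A := by
    rw [hA]
    have : 0 < (2 : ℝ) ^ s - 1 := by linarith
    positivity
  have hA1 : C ≤ A * (2 ^ s - 1) := by
    have h1 : 0 < (2 : ℝ) ^ s - 1 := by linarith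
    rw [hA, add_mul, div_mul_cancel₀ _ h1.ne']
    nlinarith
  have hfin : ∀ t Y : ℝ, {v ∈ Near3 t w | (ht3 v : ℝ) ≤ Y}.Finite := fun t Y =>
    (fin_ht3 Y).subset fun _ hv => hv.2
  have hstep : ∀ (t : ℝ) (J : ℕ), ({v ∈ Near3 t w | (ht3 v : ℝ) ≤ 2 ^ J}.ncard : ℝ) ≤
      A * ((2 : ℝ) ^ J) ^ s := by
    intro t J
    induction J with
    | zero =>
      have h1 := h t 1 le_rfl
      have h2 : {v ∈ Near3 t w | (ht3 v : ℝ) ≤ 2 ^ 0} ⊆ Win t w 1 := by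
        rintro v ⟨hv, hv1⟩
        rw [pow_zero] at hv1
        exact ⟨hv, ht3_pos hv.2.1, by linarith⟩
      have h3 : ({v ∈ Near3 t w | (ht3 v : ℝ) ≤ 2 ^ 0}.ncard : ℝ) ≤ (Win t w 1).ncard := by
        exact_mod_cast Set.ncard_le_ncard h2 (win_finite t w 1)
      rw [Real.one_rpow, mul_one] at h1
      rw [pow_zero, Real.one_rpow, mul_one]
      rw [pow_zero] at h3
      have h4 : C ≤ A := by
        rw [hA]
        have : 0 < (2 : ℝ) ^ s - 1 := by linarith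
        have : 0 < C / (2 ^ s - 1) := by positivity
        linarith
      linarith
    | succ J ih =>
      have hJ : (1 : ℝ) ≤ 2 ^ J := one_le_pow₀ (by norm_num)
      have h1 := h t (2 ^ J) hJ
      have h2 : {v ∈ Near3 t w | (ht3 v : ℝ) ≤ 2 ^ (J + 1)} ⊆
          {v ∈ Near3 t w | (ht3 v : ℝ) ≤ 2 ^ J} ∪ Win t w (2 ^ J) := by
        rintro v ⟨hv, hv1⟩
        rcases le_total (ht3 v : ℝ) (2 ^ J) with h3 | h3
        · exact Or.inl ⟨hv, h3⟩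
        · exact Or.inr ⟨hv, h3, by rw [pow_succ] at hv1; linarith⟩
      have h3 := Set.ncard_le_ncard h2 ((hfin t _).union (win_finite t w _))
      have h4 := h3.trans (Set.ncard_union_le _ _)
      have h5 : ({v ∈ Near3 t w | (ht3 v : ℝ) ≤ 2 ^ (J + 1)}.ncard : ℝ) ≤
          ({v ∈ Near3 t w | (ht3 v : ℝ) ≤ 2 ^ J}.ncard : ℝ) + (Win t w (2 ^ J)).ncard := by
        exact_mod_cast h4
      have h6 : ((2 : ℝ) ^ (J + 1)) ^ s = (2 ^ J) ^ s * 2 ^ s := by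
        rw [pow_succ, Real.mul_rpow (by positivity) (by norm_num)]
      have h7 : 0 < ((2 : ℝ) ^ J) ^ s := by positivity
      rw [h6]
      nlinarith
  refine ⟨A * 2 ^ s, by positivity, fun t X hX => ⟨hfin t X, ?_⟩⟩
  obtain ⟨n, hn1, hn2⟩ := exists_nat_pow_near hX (show (1 : ℝ) < 2 by norm_num)
  have h1 : ({v ∈ Near3 t w | (ht3 v : ℝ) ≤ X}.ncard : ℝ) ≤
      ({v ∈ Near3 t w | (ht3 v : ℝ) ≤ 2 ^ (n + 1)}.ncard : ℝ) := by
    have h2 : {v ∈ Near3 t w | (ht3 v : ℝ) ≤ X} ⊆ {v ∈ Near3 t w | (ht3 v : ℝ) ≤ 2 ^ (n + 1)} :=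
      fun v hv => ⟨hv.1, hv.2.trans hn2.le⟩
    exact_mod_cast Set.ncard_le_ncard h2 (hfin t _)
  have h2 := hstep t (n + 1)
  have h3 : ((2 : ℝ) ^ (n + 1)) ^ s ≤ 2 ^ s * X ^ s := by
    rw [← Real.mul_rpow (by norm_num) (by linarith)]
    refine Real.rpow_le_rpow (by positivity) ?_ hs0.le
    rw [pow_succ]
    linarith
  calc ({v ∈ Near3 t w | (ht3 v : ℝ) ≤ X}.ncard : ℝ) ≤ A * ((2 : ℝ) ^ (n + 1)) ^ s := h1.trans h2
    _ ≤ A * (2 ^ s * X ^ s) := by gcongr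
    _ = _ := by ring

end Pool.Agent.X142.LI
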