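import Mathlib
import Pool.Agent.X142.LI.Window

/-!
# Uniform approximation by `a + b e + c t`
-/

set_option autoImplicit false

namespace Pool.Agent.X142.LI

open Finset Filter

/-- uniform approximation of exponent `w` -/
def Unif (t w : ℝ) : Prop :=
  ∃ X₀ : ℝ, ∀ X : ℝ, X₀ ≤ X → ∃ v : ℤ × ℤ × ℤ, v ≠ 0 ∧ (ht3 v : ℝ) ≤ X ∧ |form3 t v| ≤ X ^ (-w)

/-- minimal points -/
def MinPt (t : ℝ) (v : ℤ × ℤ × ℤ) : Prop :=
  v ≠ 0 ∧ ∀ x : ℤ × ℤ × ℤ, x ≠ 0 → ht3 x ≤ ht3 v → |form3 t v| ≤ |form3 t x|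

lemma ht3_pos' {v : ℤ × ℤ × ℤ} (hv : v ≠ 0) : 1 ≤ ht3 v := by
  by_contra h
  apply hv
  have h0 : ht3 v = 0 := by omega
  unfold ht3 at h0
  have h1 : v.1.natAbs = 0 := by
    have := le_max_left v.1.natAbs (max v.2.1.natAbs v.2.2.natAbs)
    omega
  have h2 : v.2.1.natAbs = 0 := by
    have := (le_max_left v.2.1.natAbs v.2.2.natAbs).trans
      (le_max_right v.1.natAbs (max v.2.1.natAbs v.2.2.natAbs))
    omega
  have h3 : v.2.2.natAbs = 0 := by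
    have := (le_max_right v.2.1.natAbs v.2.2.natAbs).trans
      (le_max_right v.1.natAbs (max v.2.1.natAbs v.2.2.natAbs))
    omega
  exact Prod.ext (Int.natAbs_eq_zero.1 h1) (Prod.ext (Int.natAbs_eq_zero.1 h2)
    (Int.natAbs_eq_zero.1 h3))

lemma ht3_smul (q : ℤ) (x y : ℤ × ℤ × ℤ) (h1 : x.1 = q * y.1) (h2 : x.2.1 = q * y.2.1)
    (h3 : x.2.2 = q * y.2.2) : ht3 x = q.natAbs * ht3 y := by
  unfold ht3
  rw [h1, h2, h3, Int.natAbs_mul, Int.natAbs_mul, Int.natAbs_mul, Nat.mul_max_mul_left,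
    Nat.mul_max_mul_left]

/-- a point minimizing the form up to the height `N` -/
lemma exists_min (t : ℝ) (N : ℕ) (hN : ∃ x : ℤ × ℤ × ℤ, x ≠ 0 ∧ ht3 x ≤ N) :
    ∃ v : ℤ × ℤ × ℤ, v ≠ 0 ∧ ht3 v ≤ N ∧
      ∀ x : ℤ × ℤ × ℤ, x ≠ 0 → ht3 x ≤ N → |form3 t v| ≤ |form3 t x| := by
  have hfin : {x : ℤ × ℤ × ℤ | x ≠ 0 ∧ ht3 x ≤ N}.Finite := by
    refine (fin_ht3 N).subset fun x hx => ?_
    exact (by exact_mod_cast hx.2 : (ht3 x : ℝ) ≤ N)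
  obtain ⟨v, hv, hmin⟩ := Set.exists_min_image _ (fun x => |form3 t x|) hfin hN
  exact ⟨v, hv.1, hv.2, fun x hx hxN => hmin x ⟨hx, hxN⟩⟩

/-- the next minimal point -/
lemma next (t : ℝ) (h0 : ∀ ε : ℝ, 0 < ε → ∃ x : ℤ × ℤ × ℤ, x ≠ 0 ∧ |form3 t x| < ε)
    (hL : ∀ x : ℤ × ℤ × ℤ, x ≠ 0 → form3 t x ≠ 0) (v : ℤ × ℤ × ℤ) (hv : MinPt t v) :
    ∃ v' : ℤ × ℤ × ℤ, MinPt t v' ∧ |form3 t v'| < |form3 t v| ∧ ht3 v < ht3 v' ∧
      ∀ x : ℤ × ℤ × ℤ, x ≠ 0 → ht3 x < ht3 v' → |form3 t v| ≤ |form3 t x| := by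
  classical
  have hex : ∃ N : ℕ, ∃ x : ℤ × ℤ × ℤ, x ≠ 0 ∧ ht3 x = N ∧ |form3 t x| < |form3 t v| := by
    obtain ⟨x, hx, hx'⟩ := h0 _ (abs_pos.2 (hL v hv.1))
    exact ⟨_, x, hx, rfl, hx'⟩
  obtain ⟨x₀, hx₀, hx₀N, hx₀L⟩ := Nat.find_spec hex
  obtain ⟨v', hv', hv'N, hmin⟩ := exists_min t (Nat.find hex) ⟨x₀, hx₀, hx₀N.le⟩
  have h1 : |form3 t v'| < |form3 t v| := (hmin x₀ hx₀ hx₀N.le).trans_lt hx₀L
  have h2 : Nat.find hex ≤ ht3 v' := Nat.find_min' hex ⟨v', hv', rfl, h1⟩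
  have h3 : ht3 v' = Nat.find hex := le_antisymm hv'N h2
  refine ⟨v', ⟨hv', fun x hx hxv => hmin x hx (by omega)⟩, h1, ?_, fun x hx hxv => ?_⟩
  · by_contra hcon
    rw [not_lt] at hcon
    exact absurd (hv.2 v' hv' hcon) (not_le.2 h1)
  · by_contra hcon
    rw [not_le] at hcon
    have := Nat.find_min' hex ⟨x, hx, rfl, hcon⟩
    omega

/-- the eliminated vector of two consecutive minimal points does not vanish -/
lemma elim_ne (t : ℝ) (hL : ∀ x : ℤ × ℤ × ℤ, x ≠ 0 → form3 t x ≠ 0) (v v' : ℤ × ℤ × ℤ)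
    (hv : v ≠ 0) (hv' : v' ≠ 0) (hlt : |form3 t v'| < |form3 t v|) (hht : ht3 v < ht3 v')
    (hc : v.2.2 ≠ 0 ∨ v'.2.2 ≠ 0) :
    v'.2.2 * v.1 - v.2.2 * v'.1 ≠ 0 ∨ v'.2.2 * v.2.1 - v.2.2 * v'.2.1 ≠ 0 := by
  by_contra hcon
  push Not at hcon
  obtain ⟨h1, h2⟩ := hcon
  have e1 : v'.2.2 * v.1 = v.2.2 * v'.1 := by linarith
  have e2 : v'.2.2 * v.2.1 = v.2.2 * v'.2.1 := by linarith
  have e3 : v'.2.2 * v.2.2 = v.2.2 * v'.2.2 := by ring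
  have a1 : ht3 (v'.2.2 * v.1, v'.2.2 * v.2.1, v'.2.2 * v.2.2) = v'.2.2.natAbs * ht3 v :=
    ht3_smul _ _ _ rfl rfl rfl
  have a2 : ht3 (v'.2.2 * v.1, v'.2.2 * v.2.1, v'.2.2 * v.2.2) = v.2.2.natAbs * ht3 v' :=
    ht3_smul _ _ _ e1 e2 e3
  have a3 : v'.2.2.natAbs * ht3 v = v.2.2.natAbs * ht3 v' := a1.symm.trans a2
  have b1 : (v'.2.2 : ℝ) * form3 t v = v.2.2 * form3 t v' := by
    unfold form3
    have e1r : (v'.2.2 : ℝ) * v.1 = v.2.2 * v'.1 := by exact_mod_cast e1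
    have e2r : (v'.2.2 : ℝ) * v.2.1 = v.2.2 * v'.2.1 := by exact_mod_cast e2
    linear_combination e1r + Real.exp 1 * e2r
  have hLv := abs_pos.2 (hL v hv)
  have hLv' := abs_pos.2 (hL v' hv')
  have b2 : |(v'.2.2 : ℝ)| * |form3 t v| = |(v.2.2 : ℝ)| * |form3 t v'| := by
    rw [← abs_mul, ← abs_mul, b1]
  have hH := ht3_pos' hv
  have hH' := ht3_pos' hv'
  have c1 : 0 < v.2.2.natAbs := by
    rcases hc with h | h
    · exact Int.natAbs_pos.2 h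
    · by_contra hz
      have hz' : v.2.2.natAbs = 0 := by omega
      rw [hz', zero_mul] at a3
      have := Int.natAbs_pos.2 h
      rcases Nat.mul_eq_zero.1 a3 with h3 | h3 <;> omega
  have c2 : v.2.2.natAbs < v'.2.2.natAbs := by
    by_contra hz
    rw [not_lt] at hz
    have := Nat.mul_lt_mul_of_le_of_lt hz hht c1
    omega
  have c3 : |(v.2.2 : ℝ)| < |(v'.2.2 : ℝ)| := by
    rw [← Int.cast_abs, ← Int.cast_abs, Int.abs_eq_natAbs, Int.abs_eq_natAbs]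
    exact_mod_cast c2
  have c4 : 0 ≤ |(v.2.2 : ℝ)| := abs_nonneg _
  nlinarith

/-- inequality (v): two consecutive minimal points -/
lemma two_points (t w η c : ℝ) (hη : 0 < η) (hc : 0 < c)
    (hlin : ∀ A B : ℤ, (A ≠ 0 ∨ B ≠ 0) → ∀ H : ℝ, 1 ≤ H → |(A : ℝ)| ≤ H → |(B : ℝ)| ≤ H →
      c ≤ H ^ (1 + η) * |(A : ℝ) + B * Real.exp 1|)
    (v v' : ℤ × ℤ × ℤ) (hv : v ≠ 0) (hv' : v' ≠ 0) (hlt : |form3 t v'| < |form3 t v|)
    (hht : ht3 v < ht3 v') (hb : |form3 t v| ≤ 2 ^ w * (ht3 v' : ℝ) ^ (-w))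
    (hu : v'.2.2 * v.1 - v.2.2 * v'.1 ≠ 0 ∨ v'.2.2 * v.2.1 - v.2.2 * v'.2.1 ≠ 0) :
    (ht3 v' : ℝ) ^ (w - 2 - η) ≤ (2 ^ (1 + η) * (2 * 2 ^ w) / c) * (ht3 v : ℝ) ^ (1 + η) := by
  obtain ⟨H, hH⟩ : ∃ H : ℝ, H = ht3 v := ⟨_, rfl⟩
  obtain ⟨H', hH'⟩ : ∃ H' : ℝ, H' = ht3 v' := ⟨_, rfl⟩
  have h1 : 1 ≤ H := by rw [hH]; exact_mod_cast ht3_pos' hv
  have h1' : 1 ≤ H' := by rw [hH']; exact_mod_cast ht3_pos' hv'
  have hHH : H ≤ H' := by rw [hH, hH']; exact_mod_cast hht.le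
  rw [← hH, ← hH']
  rw [← hH'] at hb
  have hH0 : 0 < H := by linarith
  have hH0' : 0 < H' := by linarith
  have a1 := abs_fst v
  have a2 := abs_snd v
  have a3 := abs_trd v
  have b1 := abs_fst v'
  have b2 := abs_snd v'
  have b3 := abs_trd v'
  rw [← hH] at a1 a2 a3
  rw [← hH'] at b1 b2 b3
  have m : ∀ p q r s : ℝ, |p| ≤ H' → |q| ≤ H → |r| ≤ H → |s| ≤ H' →
      |p * q - r * s| ≤ 2 * (H * H') := by
    intro p q r s hp hq hr hs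
    refine (abs_sub _ _).trans ?_
    rw [abs_mul, abs_mul]
    have := mul_le_mul hp hq (abs_nonneg _) hH0'.le
    have := mul_le_mul hr hs (abs_nonneg _) hH0.le
    nlinarith
  have h2 := hlin _ _ hu (2 * (H * H')) (by nlinarith)
    (by push_cast; exact m _ _ _ _ b3 a1 a3 b1) (by push_cast; exact m _ _ _ _ b3 a2 a3 b2)
  have e3 : (((v'.2.2 * v.1 - v.2.2 * v'.1 : ℤ)) : ℝ) +
      ((v'.2.2 * v.2.1 - v.2.2 * v'.2.1 : ℤ) : ℝ) * Real.exp 1 =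
      v'.2.2 * form3 t v - v.2.2 * form3 t v' := by
    unfold form3
    push_cast
    ring
  rw [e3] at h2
  have h3 : |(v'.2.2 : ℝ) * form3 t v - v.2.2 * form3 t v'| ≤ 2 * 2 ^ w * (H' * H' ^ (-w)) := by
    refine (abs_sub _ _).trans ?_
    rw [abs_mul, abs_mul]
    have m1 := mul_le_mul b3 hb (abs_nonneg _) hH0'.le
    have m2 := mul_le_mul (a3.trans hHH) (hlt.le.trans hb) (abs_nonneg _) hH0'.le
    nlinarith
  have h4 : c ≤ (2 ^ (1 + η) * (2 * 2 ^ w)) * H ^ (1 + η) * H' ^ (2 + η - w) := by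
    calc c ≤ (2 * (H * H')) ^ (1 + η) * |(v'.2.2 : ℝ) * form3 t v - v.2.2 * form3 t v'| := h2
      _ ≤ (2 * (H * H')) ^ (1 + η) * (2 * 2 ^ w * (H' * H' ^ (-w))) := by gcongr
      _ = _ := by
          rw [Real.mul_rpow (by norm_num) (by positivity), Real.mul_rpow hH0.le hH0'.le]
          have e4 : H' ^ (2 + η - w) = H' ^ (1 + η) * (H' * H' ^ (-w)) := by
            nth_rewrite 3 [← Real.rpow_one H']
            rw [← Real.rpow_add hH0', ← Real.rpow_add hH0']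
            congr 1
            ring
          rw [e4]
          ring
  have h5 : H' ^ (2 + η - w) * H' ^ (w - 2 - η) = 1 := by
    rw [← Real.rpow_add hH0']
    have : 2 + η - w + (w - 2 - η) = 0 := by ring
    rw [this, Real.rpow_zero]
  rw [div_mul_eq_mul_div, le_div_iff₀ hc]
  have h6 : 0 < H' ^ (w - 2 - η) := by positivity
  calc H' ^ (w - 2 - η) * c ≤ H' ^ (w - 2 - η) *
      ((2 ^ (1 + η) * (2 * 2 ^ w)) * H ^ (1 + η) * H' ^ (2 + η - w)) := by gcongr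
    _ = (2 ^ (1 + η) * (2 * 2 ^ w)) * H ^ (1 + η) * (H' ^ (2 + η - w) * H' ^ (w - 2 - η)) := by ring
    _ = _ := by rw [h5, mul_one]

/-- inequality (vi): three independent minimal points -/
lemma three_points (t w : ℝ) (v v' v'' : ℤ × ℤ × ℤ) (hlt : |form3 t v'| < |form3 t v|)
    (hlt' : |form3 t v''| < |form3 t v'|)
    (hht : ht3 v < ht3 v') (hht' : ht3 v' < ht3 v'')
    (hb : |form3 t v| ≤ 2 ^ w * (ht3 v' : ℝ) ^ (-w))
    (hd : v.1 * (v'.2.1 * v''.2.2 - v''.2.1 * v'.2.2) -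
      v'.1 * (v.2.1 * v''.2.2 - v''.2.1 * v.2.2) +
      v''.1 * (v.2.1 * v'.2.2 - v'.2.1 * v.2.2) ≠ 0) :
    (ht3 v' : ℝ) ^ (w - 1) ≤ 6 * 2 ^ w * (ht3 v'' : ℝ) := by
  obtain ⟨H', hH'⟩ : ∃ H' : ℝ, H' = ht3 v' := ⟨_, rfl⟩
  obtain ⟨H'', hH''⟩ : ∃ H'' : ℝ, H'' = ht3 v'' := ⟨_, rfl⟩
  have hHH0 : (0 : ℝ) < H' := by
    rw [hH']
    have : 0 < ht3 v' := by omega
    exact_mod_cast this
  have hHH : H' ≤ H'' := by rw [hH'', hH']; exact_mod_cast hht'.le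
  have hvH : (ht3 v : ℝ) ≤ H' := by rw [hH']; exact_mod_cast hht.le
  have a2 := (abs_snd v).trans hvH
  have a3 := (abs_trd v).trans hvH
  have b2 := abs_snd v'
  have b3 := abs_trd v'
  have c2 := abs_snd v''
  have c3 := abs_trd v''
  rw [← hH'] at b2 b3
  rw [← hH''] at c2 c3
  rw [← hH', ← hH'']
  rw [← hH'] at hb
  have h0'' : 0 < H'' := by linarith
  obtain ⟨D, hD⟩ : ∃ D : ℤ, D = v.1 * (v'.2.1 * v''.2.2 - v''.2.1 * v'.2.2) -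
      v'.1 * (v.2.1 * v''.2.2 - v''.2.1 * v.2.2) +
      v''.1 * (v.2.1 * v'.2.2 - v'.2.1 * v.2.2) := ⟨_, rfl⟩
  rw [← hD] at hd
  have hDr : (D : ℝ) = form3 t v * ((v'.2.1 : ℝ) * v''.2.2 - v''.2.1 * v'.2.2) -
      form3 t v' * ((v.2.1 : ℝ) * v''.2.2 - v''.2.1 * v.2.2) +
      form3 t v'' * ((v.2.1 : ℝ) * v'.2.2 - v'.2.1 * v.2.2) := by
    rw [hD]
    unfold form3
    push_cast
    ring
  have hD1 : (1 : ℝ) ≤ |(D : ℝ)| := by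
    rw [← Int.cast_abs]
    exact_mod_cast Int.one_le_abs hd
  have m : ∀ p q r s : ℝ, |p| ≤ H' → |q| ≤ H'' → |r| ≤ H'' → |s| ≤ H' →
      |p * q - r * s| ≤ 2 * (H' * H'') := by
    intro p q r s hp hq hr hs
    refine (abs_sub _ _).trans ?_
    rw [abs_mul, abs_mul]
    have := mul_le_mul hp hq (abs_nonneg _) hHH0.le
    have := mul_le_mul hr hs (abs_nonneg _) h0''.le
    nlinarith
  have hL0 : 0 ≤ |form3 t v| := abs_nonneg _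
  have m1 : |form3 t v * ((v'.2.1 : ℝ) * v''.2.2 - v''.2.1 * v'.2.2)| ≤
      |form3 t v| * (2 * (H' * H'')) := by
    rw [abs_mul]
    exact mul_le_mul le_rfl (m _ _ _ _ b2 c3 c2 b3) (abs_nonneg _) hL0
  have m2 : |form3 t v' * ((v.2.1 : ℝ) * v''.2.2 - v''.2.1 * v.2.2)| ≤
      |form3 t v| * (2 * (H' * H'')) := by
    rw [abs_mul]
    exact mul_le_mul hlt.le (m _ _ _ _ a2 c3 c2 a3) (abs_nonneg _) hL0
  have m3 : |form3 t v'' * ((v.2.1 : ℝ) * v'.2.2 - v'.2.1 * v.2.2)| ≤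
      |form3 t v| * (2 * (H' * H'')) := by
    rw [abs_mul]
    exact mul_le_mul (hlt'.le.trans hlt.le) (m _ _ _ _ a2 (b3.trans hHH) (b2.trans hHH) a3)
      (abs_nonneg _) hL0
  have h1 : 1 ≤ 6 * (2 ^ w * H' ^ (-w)) * (H' * H'') := by
    calc (1 : ℝ) ≤ |(D : ℝ)| := hD1
      _ ≤ |form3 t v| * (2 * (H' * H'')) + |form3 t v| * (2 * (H' * H'')) +
          |form3 t v| * (2 * (H' * H'')) := by
          rw [hDr]
          exact (abs_add_le _ _).trans (add_le_add ((abs_sub _ _).trans (add_le_add m1 m2)) m3)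
      _ = 6 * |form3 t v| * (H' * H'') := by ring
      _ ≤ _ := by gcongr
  have h2 : H' ^ (-w) * H' * H' ^ (w - 1) = 1 := by
    nth_rewrite 2 [← Real.rpow_one H']
    rw [← Real.rpow_add hHH0, ← Real.rpow_add hHH0]
    have : -w + 1 + (w - 1) = 0 := by ring
    rw [this, Real.rpow_zero]
  have h3 : 0 < H' ^ (w - 1) := by positivity
  calc H' ^ (w - 1) = H' ^ (w - 1) * 1 := by ring
    _ ≤ H' ^ (w - 1) * (6 * (2 ^ w * H' ^ (-w)) * (H' * H'')) := by gcongr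
    _ = 6 * 2 ^ w * H'' * (H' ^ (-w) * H' * H' ^ (w - 1)) := by ring
    _ = _ := by rw [h2, mul_one]

end Pool.Agent.X142.LI
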