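import Mathlib
import Pool.Agent.X142.LI.Count
import Pool.Agent.TH456.TM.E

/-!
# Sparse near relations of a family of numbers, uniform version
-/

set_option autoImplicit false

namespace Pool.Agent.X142.LI

open Polynomial Pool.Agent.TH456.TM

/-- the near relations of a family are sparse; the constant depends on the constants in the
assumption only -/
theorem sparse_unif (C κ w ρ : ℝ) (hC : 0 < C) (hκ0 : 0 < κ) (hρ : 1 < ρ) (hρw : ρ < w / κ) :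
    ∃ H₀ : ℝ, 3 ≤ H₀ ∧ ∀ {ι : Type} (S : Finset ι) (v : ι → ℂ) (D : ℕ),
      (∀ i ∈ S, ∀ j ∈ S, ∀ P ∈ I1 D, ∀ Q ∈ I1 D, (i, P) ≠ (j, Q) →
        ∀ H : ℝ, (ht P : ℝ) ≤ H → (ht Q : ℝ) ≤ H →
          C * H ^ (-κ) ≤ max ‖aeval (v i) P‖ ‖aeval (v j) Q‖) →
      ∀ X : ℝ, 3 ≤ X →
        {p ∈ NearF S v D w | H₀ ≤ (ht p.2 : ℝ) ∧ (ht p.2 : ℝ) ≤ X}.Finite ∧
        ({p ∈ NearF S v D w | H₀ ≤ (ht p.2 : ℝ) ∧ (ht p.2 : ℝ) ≤ X}.ncard : ℝ) ≤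
          Real.log (Real.log X) / Real.log ρ + 1 := by
  have hw : 0 < w := by
    rw [lt_div_iff₀ hκ0] at hρw
    nlinarith
  obtain ⟨H₀, hH3, hH⟩ := count_unif (C ^ (1 / κ)) (w / κ) ρ (by positivity) hρ hρw
  refine ⟨H₀, hH3, fun {ι} S v D hcore X hX =>
    hH (NearF S v D w) (fun p : ι × ℤ[X] => (ht p.2 : ℝ)) ?_ X hX⟩
  rintro ⟨i, P⟩ ⟨hi, hP, hPt⟩ ⟨j, Q⟩ ⟨hj, hQ, hQt⟩ hne hle h1
  obtain ⟨h₁, hh₁⟩ : ∃ h₁ : ℝ, h₁ = ht P := ⟨_, rfl⟩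
  obtain ⟨h₂, hh₂⟩ : ∃ h₂ : ℝ, h₂ = ht Q := ⟨_, rfl⟩
  simp only [← hh₁, ← hh₂] at hle h1 hPt hQt ⊢
  have h₁0 : 0 < h₁ := by linarith
  have h₂0 : 0 < h₂ := by linarith
  have h2 := hcore i hi j hj P hP Q hQ hne h₂ (by rw [← hh₁]; exact hle)
    (by rw [← hh₂])
  have h3 : max ‖aeval (v i) P‖ ‖aeval (v j) Q‖ ≤ h₁ ^ (-w) :=
    max_le hPt (hQt.trans (Real.rpow_le_rpow_of_nonpos h₁0 hle (by linarith)))
  have h4 : C * h₁ ^ w ≤ h₂ ^ κ := by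
    have h5 : h₁ ^ (-w) * h₁ ^ w = 1 := by rw [← Real.rpow_add h₁0]; simp
    have h6 : h₂ ^ (-κ) * h₂ ^ κ = 1 := by rw [← Real.rpow_add h₂0]; simp
    calc C * h₁ ^ w = (C * h₂ ^ (-κ)) * (h₁ ^ w * h₂ ^ κ) := by
          calc C * h₁ ^ w = C * h₁ ^ w * (h₂ ^ (-κ) * h₂ ^ κ) := by rw [h6, mul_one]
            _ = _ := by ring
      _ ≤ h₁ ^ (-w) * (h₁ ^ w * h₂ ^ κ) :=
          mul_le_mul_of_nonneg_right (h2.trans h3) (by positivity)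
      _ = (h₁ ^ (-w) * h₁ ^ w) * h₂ ^ κ := by ring
      _ = _ := by rw [h5, one_mul]
  have h7 := Real.rpow_le_rpow (by positivity) h4 (show 0 ≤ 1 / κ by positivity)
  rw [Real.mul_rpow hC.le (by positivity), ← Real.rpow_mul h₁0.le,
    ← Real.rpow_mul h₂0.le, mul_one_div, mul_one_div, div_self hκ0.ne', Real.rpow_one] at h7
  exact h7

end Pool.Agent.X142.LI
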