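import Mathlib
import Pool.Agent.X142.LI.Min

/-!
# Uniform approximation with a large exponent implies linear dependence
-/

set_option autoImplicit false

namespace Pool.Agent.X142.LI

open Finset Filter Topology

lemma elim_small (t w : ℝ) (v v' : ℤ × ℤ × ℤ) (hlt : |form3 t v'| < |form3 t v|)
    (hht : ht3 v < ht3 v') (hb : |form3 t v| ≤ 2 ^ w * (ht3 v' : ℝ) ^ (-w)) :
    |(((v'.2.2 * v.1 - v.2.2 * v'.1 : ℤ)) : ℝ) +
      ((v'.2.2 * v.2.1 - v.2.2 * v'.2.1 : ℤ) : ℝ) * Real.exp 1| ≤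
      2 * 2 ^ w * (ht3 v' : ℝ) ^ (1 - w) := by
  have e3 : (((v'.2.2 * v.1 - v.2.2 * v'.1 : ℤ)) : ℝ) +
      ((v'.2.2 * v.2.1 - v.2.2 * v'.2.1 : ℤ) : ℝ) * Real.exp 1 =
      v'.2.2 * form3 t v - v.2.2 * form3 t v' := by
    unfold form3
    push_cast
    ring
  have h0 : (0 : ℝ) < ht3 v' := by
    have : 0 < ht3 v' := by omega
    exact_mod_cast this
  have a3 : |(v.2.2 : ℝ)| ≤ ht3 v' := (abs_trd v).trans (by exact_mod_cast hht.le)
  have b3 := abs_trd v'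
  rw [e3]
  refine (abs_sub _ _).trans ?_
  rw [abs_mul, abs_mul]
  have m1 := mul_le_mul b3 hb (abs_nonneg _) h0.le
  have m2 := mul_le_mul a3 (hlt.le.trans hb) (abs_nonneg _) h0.le
  have e4 : (ht3 v' : ℝ) ^ (1 - w) = ht3 v' * (ht3 v' : ℝ) ^ (-w) := by
    rw [sub_eq_add_neg, Real.rpow_add h0, Real.rpow_one]
  rw [e4]
  nlinarith

lemma par_trans (x y z : ℤ × ℤ) (hy : y.1 ≠ 0 ∨ y.2 ≠ 0) (h1 : x.1 * y.2 = y.1 * x.2)
    (h2 : y.1 * z.2 = z.1 * y.2) : x.1 * z.2 = z.1 * x.2 := by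
  rcases hy with h | h
  · have : y.1 * (x.1 * z.2) = y.1 * (z.1 * x.2) := by
      linear_combination x.1 * h2 + z.1 * h1
    exact mul_left_cancel₀ h this
  · have : y.2 * (x.1 * z.2) = y.2 * (z.1 * x.2) := by
      linear_combination z.2 * h1 + x.2 * h2
    exact mul_left_cancel₀ h this

theorem dep_of_unif (t w : ℝ) (hw : (3 + Real.sqrt 5) / 2 < w) (hU : Unif t w) :
    ∃ v : ℤ × ℤ × ℤ, v ≠ 0 ∧ form3 t v = 0 := by
  by_contra hcon
  push Not at hcon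
  have hL : ∀ x : ℤ × ℤ × ℤ, x ≠ 0 → form3 t x ≠ 0 := hcon
  -- exponents
  have h5 : 0 < Real.sqrt 5 := Real.sqrt_pos.2 (by norm_num)
  have h52 : 2 < Real.sqrt 5 := by
    rw [show (2 : ℝ) = Real.sqrt 4 by rw [show (4 : ℝ) = 2 ^ 2 by norm_num, Real.sqrt_sq (by norm_num)]]
    exact Real.sqrt_lt_sqrt (by norm_num) (by norm_num)
  have hw2 : 5 / 2 < w := by linarith
  have hquad : 0 < w ^ 2 - 3 * w + 1 := by
    have h6 : Real.sqrt 5 ^ 2 = 5 := Real.sq_sqrt (by norm_num)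
    nlinarith [mul_pos (show 0 < w - (3 + Real.sqrt 5) / 2 by linarith)
      (show 0 < w - (3 - Real.sqrt 5) / 2 by linarith)]
  have hw0 : 0 < w := by linarith
  obtain ⟨η, hη⟩ : ∃ η : ℝ, η = (w ^ 2 - 3 * w + 1) / (2 * w) := ⟨_, rfl⟩
  have hη0 : 0 < η := by rw [hη]; positivity
  have hηw : η * (2 * w) = w ^ 2 - 3 * w + 1 := by rw [hη]; field_simp
  have hp : 0 < w - 2 - η := by nlinarith
  have hδ : 0 < (w - 1) * (w - 2 - η) - (1 + η) := by nlinarith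
  obtain ⟨c, hc, hlin⟩ := e_lin η hη0
  obtain ⟨X₀, hX₀⟩ := hU
  -- small values
  have h0 : ∀ ε : ℝ, 0 < ε → ∃ x : ℤ × ℤ × ℤ, x ≠ 0 ∧ |form3 t x| < ε := by
    intro ε hε
    have h1 := (tendsto_rpow_neg_atTop hw0).eventually_lt_const hε
    obtain ⟨X, hX⟩ := (h1.and (eventually_ge_atTop X₀)).exists
    obtain ⟨v, hv, _, hv2⟩ := hX₀ X hX.2
    exact ⟨v, hv, hv2.trans_lt hX.1⟩
  -- the sequence of minimal points
  obtain ⟨v₀, hv₀, hv₀N, hmin₀⟩ := exists_min t 1 ⟨(1, 0, 0), by simp, by simp [ht3]⟩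
  have hM₀ : MinPt t v₀ := ⟨hv₀, fun x hx hxv => hmin₀ x hx (hxv.trans hv₀N)⟩
  have hnext := fun v : {v : ℤ × ℤ × ℤ // MinPt t v} => next t h0 hL v.1 v.2
  choose F hF1 hF2 hF3 hF4 using hnext
  obtain ⟨s, hs⟩ : ∃ s : ℕ → {v : ℤ × ℤ × ℤ // MinPt t v},
      s = fun n => (fun v => (⟨F v, hF1 v⟩ : {v : ℤ × ℤ × ℤ // MinPt t v}))^[n] ⟨v₀, hM₀⟩ := ⟨_, rfl⟩
  have hsucc : ∀ n, (s (n + 1)).1 = F (s n) := by
    intro n
    rw [hs]
    simp only [Function.iterate_succ_apply']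
  obtain ⟨P, hP⟩ : ∃ P : ℕ → ℤ × ℤ × ℤ, P = fun n => (s n).1 := ⟨_, rfl⟩
  have hne : ∀ n, P n ≠ 0 := fun n => by rw [hP]; exact (s n).2.1
  have hlt : ∀ n, |form3 t (P (n + 1))| < |form3 t (P n)| := fun n => by
    rw [hP]
    simp only [hsucc]
    exact hF2 (s n)
  have hht : ∀ n, ht3 (P n) < ht3 (P (n + 1)) := fun n => by
    rw [hP]
    simp only [hsucc]
    exact hF3 (s n)
  have hmin : ∀ n, ∀ x : ℤ × ℤ × ℤ, x ≠ 0 → ht3 x < ht3 (P (n + 1)) →
      |form3 t (P n)| ≤ |form3 t x| := fun n x hx hxn => by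
    rw [hP] at hxn ⊢
    simp only [hsucc] at hxn
    exact hF4 (s n) x hx hxn
  have hge : ∀ n, n ≤ ht3 (P n) := by
    intro n
    induction n with
    | zero => exact Nat.zero_le _
    | succ n ih => have := hht n; omega
  have htend : Tendsto (fun n => (ht3 (P n) : ℝ)) atTop atTop := by
    refine tendsto_atTop_mono (fun n => ?_) tendsto_natCast_atTop_atTop
    exact_mod_cast hge n
  have htend1 : Tendsto (fun n => (ht3 (P (n + 1)) : ℝ)) atTop atTop :=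
    htend.comp (tendsto_add_atTop_nat 1)
  -- bound for the form
  have hb : ∀ᶠ n in atTop, |form3 t (P n)| ≤ 2 ^ w * (ht3 (P (n + 1)) : ℝ) ^ (-w) := by
    filter_upwards [htend1.eventually_ge_atTop (2 * X₀)] with n hn
    have hpos : (0 : ℝ) < ht3 (P (n + 1)) := by
      have := hht n
      have : 0 < ht3 (P (n + 1)) := by omega
      exact_mod_cast this
    obtain ⟨x, hx, hx1, hx2⟩ := hX₀ ((ht3 (P (n + 1)) : ℝ) / 2) (by linarith)
    have h1 : ht3 x < ht3 (P (n + 1)) := by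
      have : (ht3 x : ℝ) < ht3 (P (n + 1)) := by linarith
      exact_mod_cast this
    refine (hmin n x hx h1).trans (hx2.trans (le_of_eq ?_))
    rw [Real.div_rpow hpos.le (by norm_num), Real.rpow_neg (by norm_num : (0 : ℝ) ≤ 2), div_inv_eq_mul,
      mul_comm]
  -- third coordinates
  have hcn : ∀ᶠ n in atTop, (P n).2.2 ≠ 0 := by
    have hexp : 0 < w - 1 - η := by linarith
    have h1 := ((tendsto_rpow_neg_atTop hexp).comp htend).const_mul (2 ^ w)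
    rw [mul_zero] at h1
    filter_upwards [hb, h1.eventually_lt_const hc] with n hn hn2 hz
    simp only [Function.comp_apply] at hn2
    have hnpos : (1 : ℝ) ≤ ht3 (P n) := by exact_mod_cast ht3_pos' (hne n)
    have hn0 : (0 : ℝ) < ht3 (P n) := by linarith
    have hAB : (P n).1 ≠ 0 ∨ (P n).2.1 ≠ 0 := by
      by_contra hcon
      push Not at hcon
      exact hne n (Prod.ext hcon.1 (Prod.ext hcon.2 hz))
    have h2 := hlin (P n).1 (P n).2.1 hAB (ht3 (P n)) hnpos (abs_fst _) (abs_snd _)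
    have h3 : form3 t (P n) = ((P n).1 : ℝ) + (P n).2.1 * Real.exp 1 := by
      unfold form3
      rw [hz]
      simp
    rw [← h3] at h2
    have h4 : (ht3 (P (n + 1)) : ℝ) ^ (-w) ≤ (ht3 (P n) : ℝ) ^ (-w) :=
      Real.rpow_le_rpow_of_nonpos hn0 (by exact_mod_cast (hht n).le) (by linarith)
    have h6 : c ≤ 2 ^ w * (ht3 (P n) : ℝ) ^ (-(w - 1 - η)) := by
      calc c ≤ (ht3 (P n) : ℝ) ^ (1 + η) * |form3 t (P n)| := h2
        _ ≤ (ht3 (P n) : ℝ) ^ (1 + η) * (2 ^ w * (ht3 (P n) : ℝ) ^ (-w)) := by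
            gcongr
            exact hn.trans (by gcongr)
        _ = 2 ^ w * ((ht3 (P n) : ℝ) ^ (1 + η) * (ht3 (P n) : ℝ) ^ (-w)) := by ring
        _ = _ := by
            rw [← Real.rpow_add hn0]
            congr 2
            ring
    linarith
  -- determinants vanish
  obtain ⟨D, hD⟩ : ∃ D : ℕ → ℤ, D = fun n =>
      (P n).1 * ((P (n + 1)).2.1 * (P (n + 2)).2.2 - (P (n + 2)).2.1 * (P (n + 1)).2.2) -
      (P (n + 1)).1 * ((P n).2.1 * (P (n + 2)).2.2 - (P (n + 2)).2.1 * (P n).2.2) +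
      (P (n + 2)).1 * ((P n).2.1 * (P (n + 1)).2.2 - (P (n + 1)).2.1 * (P n).2.2) := ⟨_, rfl⟩
  obtain ⟨C₁, hC₁⟩ : ∃ C₁ : ℝ, C₁ = 2 ^ (1 + η) * (2 * 2 ^ w) / c := ⟨_, rfl⟩
  have hC₁0 : 0 < C₁ := by rw [hC₁]; positivity
  have hdet : ∀ᶠ n in atTop, D n = 0 := by
    have h1 := (tendsto_rpow_atTop hδ).comp htend1
    have hb1 := (tendsto_add_atTop_nat 1).eventually hb
    have hcn1 := (tendsto_add_atTop_nat 1).eventually hcn
    filter_upwards [hb, hb1, hcn1, h1.eventually_gt_atTop ((6 * 2 ^ w) ^ (w - 2 - η) * C₁)]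
      with n hn hn1 hn2 hn3
    by_contra hDn
    simp only [Function.comp_apply] at hn3
    have hpos : (0 : ℝ) < ht3 (P (n + 1)) := by
      have := ht3_pos' (hne (n + 1))
      exact_mod_cast this
    have hpos2 : (0 : ℝ) < ht3 (P (n + 2)) := by
      have := ht3_pos' (hne (n + 2))
      exact_mod_cast this
    have h2 := three_points t w (P n) (P (n + 1)) (P (n + 2)) (hlt n) (hlt (n + 1)) (hht n)
      (hht (n + 1)) hn (by rw [hD] at hDn; exact hDn)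
    have h3 := two_points t w η c hη0 hc hlin (P (n + 1)) (P (n + 2)) (hne _) (hne _)
      (hlt (n + 1)) (hht (n + 1)) hn1
      (elim_ne t hL _ _ (hne _) (hne _) (hlt (n + 1)) (hht (n + 1)) (Or.inl hn2))
    rw [← hC₁] at h3
    have h4 := Real.rpow_le_rpow (by positivity) h2 hp.le
    rw [← Real.rpow_mul hpos.le, Real.mul_rpow (by positivity) hpos2.le] at h4
    have h6 : (ht3 (P (n + 1)) : ℝ) ^ ((w - 1) * (w - 2 - η)) ≤
        (6 * 2 ^ w) ^ (w - 2 - η) * (C₁ * (ht3 (P (n + 1)) : ℝ) ^ (1 + η)) := by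
      refine h4.trans ?_
      gcongr
    have h7 : (ht3 (P (n + 1)) : ℝ) ^ ((w - 1) * (w - 2 - η)) =
        (ht3 (P (n + 1)) : ℝ) ^ ((w - 1) * (w - 2 - η) - (1 + η)) *
          (ht3 (P (n + 1)) : ℝ) ^ (1 + η) := by
      rw [← Real.rpow_add hpos]
      congr 1
      ring
    rw [h7, ← mul_assoc] at h6
    have h8 : 0 < (ht3 (P (n + 1)) : ℝ) ^ (1 + η) := by positivity
    have h9 := le_of_mul_le_mul_right h6 h8
    linarith
  -- the eliminated vectors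
  obtain ⟨u, hu⟩ : ∃ u : ℕ → ℤ × ℤ, u = fun n =>
      ((P (n + 1)).2.2 * (P n).1 - (P n).2.2 * (P (n + 1)).1,
        (P (n + 1)).2.2 * (P n).2.1 - (P n).2.2 * (P (n + 1)).2.1) := ⟨_, rfl⟩
  obtain ⟨N, hN⟩ := eventually_atTop.1 (hb.and (hcn.and hdet))
  have hu0 : ∀ n, N ≤ n → (u n).1 ≠ 0 ∨ (u n).2 ≠ 0 := by
    intro n hn
    rw [hu]
    exact elim_ne t hL _ _ (hne _) (hne _) (hlt n) (hht n) (Or.inl (hN n hn).2.1)
  have hupar : ∀ n, N ≤ n → (u n).1 * (u (n + 1)).2 = (u (n + 1)).1 * (u n).2 := by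
    intro n hn
    have h1 := (hN n hn).2.2
    rw [hD] at h1
    simp only at h1
    rw [hu]
    simp only
    linear_combination (P (n + 1)).2.2 * h1
  have hpar : ∀ n, N ≤ n → (u N).1 * (u n).2 = (u n).1 * (u N).2 := by
    intro n hn
    induction n, hn using Nat.le_induction with
    | base => ring
    | succ n hn ih => exact par_trans _ _ _ (hu0 n hn) ih (hupar n hn)
  obtain ⟨g, hg, hk⟩ := parallel {x | ∃ n, N ≤ n ∧ u n = x} (by
    rintro _ ⟨n, hn, rfl⟩ _ ⟨m, hm, rfl⟩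
    have h1 := hpar n hn
    have h2 := hpar m hm
    exact par_trans _ (u N) _ (hu0 N le_rfl) (by linarith) h2)
  -- contradiction
  obtain ⟨z, hz⟩ : ∃ z : ℝ, z = |(g.1 : ℝ) + g.2 * Real.exp 1| := ⟨_, rfl⟩
  have hzpos : 0 < z := by
    obtain ⟨G, hG⟩ : ∃ G : ℝ, G = max 1 (max |(g.1 : ℝ)| |(g.2 : ℝ)|) := ⟨_, rfl⟩
    have h1 := hlin g.1 g.2 hg G (by rw [hG]; exact le_max_left _ _)
      (by rw [hG]; exact (le_max_left _ _).trans (le_max_right _ _))
      (by rw [hG]; exact (le_max_right _ _).trans (le_max_right _ _))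
    rw [← hz] at h1
    have hG0 : 0 < G := by rw [hG]; exact lt_max_of_lt_left one_pos
    have h2 : 0 < G ^ (1 + η) := by positivity
    by_contra h3
    have h4 : z ≤ 0 := not_lt.1 h3
    nlinarith
  have hle : ∀ᶠ n in atTop, z ≤ 2 * 2 ^ w * (ht3 (P (n + 1)) : ℝ) ^ (-(w - 1)) := by
    filter_upwards [eventually_ge_atTop N] with n hn
    obtain ⟨k, hk1, hk2⟩ := hk (u n) ⟨n, hn, rfl⟩
    have hk0 : k ≠ 0 := by
      rintro rfl
      rcases hu0 n hn with h | h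
      · exact h (by rw [hk1]; ring)
      · exact h (by rw [hk2]; ring)
    have h1 := elim_small t w (P n) (P (n + 1)) (hlt n) (hht n) (hN n hn).1
    have h2 : (P (n + 1)).2.2 * (P n).1 - (P n).2.2 * (P (n + 1)).1 = k * g.1 := by
      rw [← hk1, hu]
    have h3 : (P (n + 1)).2.2 * (P n).2.1 - (P n).2.2 * (P (n + 1)).2.1 = k * g.2 := by
      rw [← hk2, hu]
    rw [h2, h3] at h1
    have h4 : ((k * g.1 : ℤ) : ℝ) + ((k * g.2 : ℤ) : ℝ) * Real.exp 1 =
        (k : ℝ) * (g.1 + g.2 * Real.exp 1) := by push_cast; ring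
    rw [h4, abs_mul, ← hz] at h1
    have h6 : (1 : ℝ) ≤ |(k : ℝ)| := by
      rw [← Int.cast_abs]
      exact_mod_cast Int.one_le_abs hk0
    have h7 : (1 - w) = -(w - 1) := by ring
    rw [h7] at h1
    nlinarith
  have hlim : Tendsto (fun n => 2 * 2 ^ w * (ht3 (P (n + 1)) : ℝ) ^ (-(w - 1))) atTop (𝓝 0) := by
    have h1 := ((tendsto_rpow_neg_atTop (show 0 < w - 1 by linarith)).comp htend1).const_mul
      (2 * 2 ^ w)
    rw [mul_zero] at h1
    exact h1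
  have := ge_of_tendsto hlim hle
  linarith

end Pool.Agent.X142.LI
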